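import Pool.Agent.H25.RC.Var

/-!
# Stage 1 of the coin: the certificate
-/

namespace RC.SOne

open Finset

variable {n : ℕ}

namespace Par

variable (p : Par n)

/-- the scalar part -/
noncomputable def cA (v : Bool) (g : Gh n) : ℝ := max 0 (Fz (1 / 5) 12 (sg v * g.z) g.s / 64)

/-- the exponential correction for the reader `P` -/
noncomputable def cE (x : ℝ) (v : Bool) (g : Gh n) (P : Fin n) : ℝ :=
  Real.exp (-(1 / 32 / x) * (sg v * g.D P) - (1 / 32 / x) * (1 / 32) +
    (1 / 32 / x) ^ 2 * (x - g.Q P) / 2)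

/-- the certificate -/
noncomputable def cF (x : ℝ) (v : Bool) (g : Gh n) : ℝ := max 0 (cA v g - ∑ P, cE x v g P)

variable {p} {x : ℝ}

theorem cA_avg (v : Bool) (z s w : ℝ) :
    max 0 (Fz (1 / 5) 12 (sg v * z) s / 64) ≤
      (max 0 (Fz (1 / 5) 12 (sg v * (z + sg false * w)) (s + w ^ 2) / 64) +
        max 0 (Fz (1 / 5) 12 (sg v * (z + sg true * w)) (s + w ^ 2) / 64)) / 2 := by
  have h1 := Fz_step (1 / 5) 12 (sg v * z) s w
  have hw : 0 ≤ w ^ 4 := by positivity
  have key : Fz (1 / 5) 12 (sg v * z) s / 64 ≤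
      (max 0 (Fz (1 / 5) 12 (sg v * (z + sg false * w)) (s + w ^ 2) / 64) +
        max 0 (Fz (1 / 5) 12 (sg v * (z + sg true * w)) (s + w ^ 2) / 64)) / 2 := by
    have h2 := le_max_right 0 (Fz (1 / 5) 12 (sg v * (z + sg false * w)) (s + w ^ 2) / 64)
    have h3 := le_max_right 0 (Fz (1 / 5) 12 (sg v * (z + sg true * w)) (s + w ^ 2) / 64)
    have h4 : Fz (1 / 5) 12 (sg v * (z + sg false * w)) (s + w ^ 2) +
        Fz (1 / 5) 12 (sg v * (z + sg true * w)) (s + w ^ 2) =
        Fz (1 / 5) 12 (sg v * z + w) (s + w ^ 2) + Fz (1 / 5) 12 (sg v * z - w) (s + w ^ 2) := by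
      cases v
      · have e1 : sg false * (z + sg false * w) = sg false * z + w := by simp [sg]; ring
        have e2 : sg false * (z + sg true * w) = sg false * z - w := by simp [sg]; ring
        rw [e1, e2]
      · have e1 : sg true * (z + sg false * w) = sg true * z - w := by simp [sg]; ring
        have e2 : sg true * (z + sg true * w) = sg true * z + w := by simp [sg]
        rw [e1, e2]; ring
    linarith
  refine max_le ?_ key
  have h2 := le_max_left 0 (Fz (1 / 5) 12 (sg v * (z + sg false * w)) (s + w ^ 2) / 64)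
  have h3 := le_max_left 0 (Fz (1 / 5) 12 (sg v * (z + sg true * w)) (s + w ^ 2) / 64)
  linarith

theorem cE_avg (θ l X : ℝ) (v : Bool) (D Q w : ℝ) :
    (Real.exp (-θ * (sg v * (D + sg false * w)) - l + θ ^ 2 * (X - (Q + w ^ 2)) / 2) +
      Real.exp (-θ * (sg v * (D + sg true * w)) - l + θ ^ 2 * (X - (Q + w ^ 2)) / 2)) / 2 ≤
    Real.exp (-θ * (sg v * D) - l + θ ^ 2 * (X - Q) / 2) := by
  have h1 : Real.exp (-θ * (sg v * (D + sg false * w)) - l + θ ^ 2 * (X - (Q + w ^ 2)) / 2) +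
      Real.exp (-θ * (sg v * (D + sg true * w)) - l + θ ^ 2 * (X - (Q + w ^ 2)) / 2) =
      Real.exp (-θ * (sg v * D) - l + θ ^ 2 * (X - Q) / 2) * Real.exp (-((θ * w) ^ 2 / 2)) *
        (Real.exp (θ * w) + Real.exp (-(θ * w))) := by
    have m1 : Real.exp (-θ * (sg v * D) - l + θ ^ 2 * (X - Q) / 2) *
        Real.exp (-((θ * w) ^ 2 / 2)) * (Real.exp (θ * w) + Real.exp (-(θ * w))) =
        Real.exp ((-θ * (sg v * D) - l + θ ^ 2 * (X - Q) / 2) + -((θ * w) ^ 2 / 2) + θ * w) +
        Real.exp ((-θ * (sg v * D) - l + θ ^ 2 * (X - Q) / 2) + -((θ * w) ^ 2 / 2) + -(θ * w)) := by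
      rw [← Real.exp_add, mul_add, ← Real.exp_add, ← Real.exp_add]
    rw [m1]
    cases v
    · have s1 : sg false = -1 := by simp [sg]
      have s2 : sg true = 1 := by simp [sg]
      rw [s1, s2, add_comm]
      congr 2 <;> ring
    · have s1 : sg false = -1 := by simp [sg]
      have s2 : sg true = 1 := by simp [sg]
      rw [s1, s2]
      congr 2 <;> ring
  have h2 := Real.cosh_le_exp_half_sq (θ * w)
  rw [Real.cosh_eq] at h2
  have h3 : Real.exp (θ * w) + Real.exp (-(θ * w)) ≤ 2 * Real.exp ((θ * w) ^ 2 / 2) := by linarith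
  have h4 : 0 ≤ Real.exp (-θ * (sg v * D) - l + θ ^ 2 * (X - Q) / 2) *
      Real.exp (-((θ * w) ^ 2 / 2)) := by positivity
  have h5 := mul_le_mul_of_nonneg_left h3 h4
  have h6 : Real.exp (-θ * (sg v * D) - l + θ ^ 2 * (X - Q) / 2) * Real.exp (-((θ * w) ^ 2 / 2)) *
      (2 * Real.exp ((θ * w) ^ 2 / 2)) =
      2 * Real.exp (-θ * (sg v * D) - l + θ ^ 2 * (X - Q) / 2) := by
    rw [show Real.exp (-θ * (sg v * D) - l + θ ^ 2 * (X - Q) / 2) * Real.exp (-((θ * w) ^ 2 / 2)) *
      (2 * Real.exp ((θ * w) ^ 2 / 2)) = 2 * Real.exp (-θ * (sg v * D) - l + θ ^ 2 * (X - Q) / 2) *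
      (Real.exp (-((θ * w) ^ 2 / 2)) * Real.exp ((θ * w) ^ 2 / 2)) by ring, ← Real.exp_add]
    simp
  rw [h1]
  linarith

theorem cF_eq (v : Bool) (g : Gh n) : cF x v g = max 0 (cA v g - ∑ P, cE x v g P) := rfl

theorem cF_flip (v : Bool) (g : Gh n) (q : Fin n) (hq : (g.pd q).ph = .vote) :
    cF x v g ≤ (cF x v (p.gstep g q false) + cF x v (p.gstep g q true)) / 2 := by
  rw [cF_eq, cF_eq, cF_eq]
  have hwv : p.wv (g.pd q) = p.ω (g.pd q).b ^ 2 := by simp [wv, hq]
  have hwt : ∀ y, p.wt (g.pd q) y = sg y * p.ω (g.pd q).b := fun y => by simp [wt, hq]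
  have hA : cA v g ≤ (cA v (p.gstep g q false) + cA v (p.gstep g q true)) / 2 := by
    unfold cA
    have e1 : ∀ y, (p.gstep g q y).z = if g.tau then g.z else g.z + p.wt (g.pd q) y := fun y => rfl
    have e2 : ∀ y, (p.gstep g q y).s = if g.tau then g.s else g.s + p.wv (g.pd q) := fun y => rfl
    rw [e1, e1, e2, e2]
    cases hc : g.tau with
    | true => simp
    | false =>
      simp only [Bool.false_eq_true, if_false]
      rw [hwv, hwt, hwt]
      exact cA_avg v g.z g.s (p.ω (g.pd q).b)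
  have hE : ∀ P, (cE x v (p.gstep g q false) P + cE x v (p.gstep g q true) P) / 2 ≤ cE x v g P := by
    intro P
    unfold cE
    have hD : ∀ y, (p.gstep g q y).D P = if g.tau = true ∧ rp (n := n) (g.pd P) ≤ q.val then
        g.D P + p.wt (g.pd q) y else g.D P := by
      intro y; unfold gstep; simp only
    have hQ : ∀ y, (p.gstep g q y).Q P = if g.tau = true ∧ rp (n := n) (g.pd P) ≤ q.val then
        g.Q P + p.wv (g.pd q) else g.Q P := by
      intro y; unfold gstep; simp only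
    rw [hD, hD, hQ, hQ]
    split_ifs with hc
    · rw [hwv, hwt, hwt]
      exact cE_avg _ _ _ v (g.D P) (g.Q P) (p.ω (g.pd q).b)
    · apply le_of_eq; ring
  have hE' : (∑ P, cE x v (p.gstep g q false) P + ∑ P, cE x v (p.gstep g q true) P) / 2 ≤
      ∑ P, cE x v g P := by
    rw [← Finset.sum_add_distrib, Finset.sum_div]
    exact Finset.sum_le_sum fun P _ => hE P
  have h1 := le_max_right 0 (cA v (p.gstep g q false) - ∑ P, cE x v (p.gstep g q false) P)
  have h2 := le_max_right 0 (cA v (p.gstep g q true) - ∑ P, cE x v (p.gstep g q true) P)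
  have h3 := le_max_left 0 (cA v (p.gstep g q false) - ∑ P, cE x v (p.gstep g q false) P)
  have h4 := le_max_left 0 (cA v (p.gstep g q true) - ∑ P, cE x v (p.gstep g q true) P)
  refine max_le ?_ ?_ <;> linarith

theorem cF_det (v : Bool) (g : Gh n) (q : Fin n) (y : Bool) (hq : (g.pd q).ph ≠ .vote) :
    cF x v g = cF x v (p.gstep g q y) := by
  rw [cF_eq, cF_eq]
  have hwv : p.wv (g.pd q) = 0 := by simp [wv, hq]
  have hwt : p.wt (g.pd q) y = 0 := by simp [wt, hq]
  have e1 : (p.gstep g q y).z = g.z := by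
    show (if g.tau then g.z else g.z + p.wt (g.pd q) y) = g.z
    rw [hwt]; simp
  have e2 : (p.gstep g q y).s = g.s := by
    show (if g.tau then g.s else g.s + p.wv (g.pd q)) = g.s
    rw [hwv]; simp
  have hD : ∀ P, (p.gstep g q y).D P = g.D P := by
    intro P
    unfold gstep; simp only
    rw [hwt]; simp
  have hQ : ∀ P, (p.gstep g q y).Q P = g.Q P := by
    intro P
    unfold gstep; simp only
    rw [hwv]; simp
  unfold cA cE
  rw [e1, e2]
  congr 2
  refine Finset.sum_congr rfl fun P _ => ?_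
  rw [hD, hQ]

theorem OK.cF_le_one (h : p.OK x) {g : Gh n} (hg : p.Inv g) (hg2 : p.Inv2 g) (v : Bool) :
    cF x v g ≤ 1 := by
  rw [cF_eq]
  have hE : 0 ≤ ∑ P, cE x v g P := Finset.sum_nonneg fun P _ => (Real.exp_pos _).le
  have hs : g.s ≤ 11 / 10 := by
    have h1 := hg2.sQ ⟨0, h.n_pos⟩
    have h2 := hg2.Q0 ⟨0, h.n_pos⟩
    have h3 := h.Φ_le hg
    have h4 := h.Φm_le
    linarith
  have h5 := Fz_le (1 / 5) (sg v * g.z) g.s (by norm_num) hg2.s0 hs
  have h6 : cA v g ≤ 1 := by
    unfold cA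
    exact max_le (by norm_num) (by linarith)
  exact max_le (by norm_num) (by linarith)

theorem OK.cF_init (h : p.OK x) (v : Bool) : 1 / 640 ≤ cF x v (ginit (n := n)) := by
  rw [cF_eq]
  refine le_trans ?_ (le_max_right _ _)
  have hx := h.x_pos
  have h1 : cA v (ginit (n := n)) = 1 / 320 := by
    unfold cA
    simp only [ginit, mul_zero, Fz_zero]
    rw [max_eq_right (by norm_num)]
    norm_num
  have h2 : ∀ P, cE x v (ginit (n := n)) P = Real.exp (-((1 / 32) ^ 2 / (2 * x))) := by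
    intro P
    unfold cE
    simp only [ginit]
    congr 1
    field_simp
    ring
  rw [h1, Finset.sum_congr rfl fun P _ => h2 P]
  simp only [Finset.sum_const, Finset.card_univ, Fintype.card_fin, nsmul_eq_mul]
  have := h.x_small
  linarith

theorem OK.cF_good (h : p.OK x) {g : Gh n} (hg : p.Inv g) (hg2 : p.Inv2 g) (v : Bool)
    (hpos : 0 < cF x v g) (i : Fin n) (b : Bool) (hi : (g.pd i).ph = .done (some b)) : b = v := by
  rw [cF_eq] at hpos
  have h1 : 0 < cA v g - ∑ P, cE x v g P := by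
    rcases lt_max_iff.mp hpos with h2 | h2
    · exact absurd h2 (lt_irrefl _)
    · exact h2
  have hx := h.x_pos
  have htau := hg2.tf i (Or.inr ⟨b, hi⟩)
  have hs1 := hg2.t1 htau
  have hΦ := h.Φ_le hg
  have hΦm := h.Φm_le
  have hsQ := hg2.sQ i
  have hQ0 := hg2.Q0 i
  have hε := h.ε_le
  have hs : g.s ≤ 11 / 10 := by linarith
  have hs0 : 9 / 10 ≤ g.s := by linarith
  have hE : ∀ P, 0 < cE x v g P := fun P => Real.exp_pos _
  have hEs : cE x v g i ≤ ∑ P, cE x v g P :=
    Finset.single_le_sum (fun P _ => (hE P).le) (Finset.mem_univ i)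
  have hA0 : 0 < cA v g := by have := hE i; linarith
  -- the scalar part gives a large sum at `tau`
  have hz : 1 / 8 < sg v * g.z := by
    by_contra hc
    have hc' := not_lt.mp hc
    have h2 := Fz_nonpos (1 / 5) (1 / 8) (9 / 10) (sg v * g.z) g.s (by norm_num) (by norm_num) hs0 hs
      (by norm_num) (by norm_num) (by norm_num) (by norm_num) hc'
    have h3 : cA v g ≤ 0 := by
      unfold cA
      exact max_le le_rfl (by linarith)
    linarith
  -- the exponential part gives a small deviation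
  have hA1 : cA v g ≤ 1 := by
    have h5 := Fz_le (1 / 5) (sg v * g.z) g.s (by norm_num) hg2.s0 hs
    unfold cA
    exact max_le (by norm_num) (by linarith)
  have hE1 : cE x v g i < 1 := by linarith
  have hD : -(1 / 32) < sg v * g.D i := by
    unfold cE at hE1
    rw [Real.exp_lt_one_iff] at hE1
    have hQx : 0 ≤ x - g.Q i := by have := h.x_ge; linarith
    have hθ : (0 : ℝ) < 1 / 32 / x := by positivity
    have h2 : 0 ≤ (1 / 32 / x) ^ 2 * (x - g.Q i) / 2 := by positivity
    by_contra hc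
    have hc' := not_lt.mp hc
    have h3 := mul_le_mul_of_nonneg_left hc' hθ.le
    linarith
  -- the view
  have hst := hg2.star i
  have hrp : rp (n := n) (g.pd i) = n := by simp [rp, hi]
  have hea : ea (g.pd i) = (g.pd i).acc := by simp [ea, hi]
  rw [hrp, hea, Tl_full le_rfl, Hd_full le_rfl] at hst
  have hu := h.sum_u (bv g.pd)
  have hu' : ∑ j, p.u (g.pd j).b = p.Ψ (bv g.pd) + 1 := hu
  rw [hu'] at hst
  have hΨ := h.Ψ_le_Φ g.pd
  have hΨ0 := h.Ψ_nonneg (bv g.pd)
  have hε0 := h.ε0_pos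
  have hε0' := h.ε0_le
  have hbound : p.ε0 * (p.Ψ (bv g.pd) + 1) ≤ 21 / 320 := by nlinarith
  have hst' := abs_le.mp (hst.trans hbound)
  have hout := hg2.out i b hi
  cases v with
  | true =>
    have e1 : sg true = 1 := by simp [sg]
    rw [e1] at hz hD
    have hacc : 0 < (g.pd i).acc := by linarith [hst'.1, hst'.2]
    rw [hout]
    simpa using hacc
  | false =>
    have e1 : sg false = -1 := by simp [sg]
    rw [e1] at hz hD
    have hacc : ¬ 0 < (g.pd i).acc := by
      rw [not_lt]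
      linarith [hst'.1, hst'.2]
    rw [hout]
    simpa using hacc

/-- **Stage 1 of the coin.** -/
theorem OK.stage1 (h : p.OK x) {K T : ℕ} (hK : 11 / 10 ≤ K * p.V p.B)
    (hT : 2 * (∑ b ∈ range p.B, p.N b) + p.B * p.d + 2 * n ≤ T) :
    Nonempty (Stage1 n T K (1 / 640)) := by
  refine ⟨⟨p.proto, h.ranked hT, fun l A hA => h.pass hK l A hA fun i hi => h.done_none l i hi,
    fun v => ⟨fun l => cF x v (p.gh l), ⟨fun l => ?_, fun l => h.cF_le_one (h.inv l) (h.inv2 l) v,
      h.cF_init v, fun l i hi => ?_, fun l i b hi => ?_, fun l hpos i b hi => ?_⟩⟩⟩⟩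
  · exact le_max_left _ _
  · rw [isFlip_iff] at hi
    rw [gh_snoc, gh_snoc]
    exact cF_flip v _ i hi
  · rw [isFlip_iff] at hi
    rw [gh_snoc]
    exact (cF_det v _ i b hi).le
  · rw [outs_iff] at hi
    exact h.cF_good (h.inv l) (h.inv2 l) v hpos i b hi

end Par

end RC.SOne
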