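import Pool.Agent.H25.RC.Proto

/-!
# Stage 1 of the coin: the ghost configuration
-/

namespace RC.SOne

open Finset

variable {n : ℕ}

/-- the part of a sum over the registers already read -/
def Hd (k : ℕ) (f : Fin n → ℝ) : ℝ := ∑ j, if j.val < k then f j else 0

/-- the part of a sum over the registers not yet read -/
def Tl (k : ℕ) (f : Fin n → ℝ) : ℝ := ∑ j, if k ≤ j.val then f j else 0

theorem Hd_zero (f : Fin n → ℝ) : Hd 0 f = 0 := by simp [Hd]

theorem Hd_succ {k : ℕ} (hk : k < n) (f : Fin n → ℝ) : Hd (k + 1) f = Hd k f + f ⟨k, hk⟩ := by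
  unfold Hd
  rw [← Finset.sum_erase_add _ _ (Finset.mem_univ (⟨k, hk⟩ : Fin n)),
    ← Finset.sum_erase_add (a := (⟨k, hk⟩ : Fin n)) (f := fun j : Fin n => if j.val < k then f j else 0)
      _ (Finset.mem_univ _)]
  simp only [Nat.lt_succ_self, if_true, lt_irrefl, if_false, add_zero]
  congr 1
  refine Finset.sum_congr rfl fun j hj => ?_
  have hj' : j.val ≠ k := fun hc => (Finset.ne_of_mem_erase hj) (Fin.ext hc)
  have : j.val < k + 1 ↔ j.val < k := by omega
  simp [this]

theorem Hd_full {k : ℕ} (hk : n ≤ k) (f : Fin n → ℝ) : Hd k f = ∑ j, f j := by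
  unfold Hd
  refine Finset.sum_congr rfl fun j _ => ?_
  rw [if_pos (lt_of_lt_of_le j.2 hk)]

theorem Hd_mono (k : ℕ) {f f' : Fin n → ℝ} (h : ∀ j, f j ≤ f' j) : Hd k f ≤ Hd k f' := by
  unfold Hd
  refine Finset.sum_le_sum fun j _ => ?_
  split_ifs
  · exact h j
  · exact le_rfl

theorem Tl_zero (f : Fin n → ℝ) : Tl 0 f = ∑ j, f j := by simp [Tl]

theorem Tl_full {k : ℕ} (hk : n ≤ k) (f : Fin n → ℝ) : Tl k f = 0 := by
  unfold Tl
  refine Finset.sum_eq_zero fun j _ => ?_
  rw [if_neg (by have := j.2; omega)]

theorem Tl_succ {k : ℕ} (hk : k < n) (f : Fin n → ℝ) : Tl k f = f ⟨k, hk⟩ + Tl (k + 1) f := by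
  unfold Tl
  rw [← Finset.add_sum_erase _ _ (Finset.mem_univ (⟨k, hk⟩ : Fin n)),
    ← Finset.add_sum_erase (a := (⟨k, hk⟩ : Fin n))
      (f := fun j : Fin n => if k + 1 ≤ j.val then f j else 0) _ (Finset.mem_univ _)]
  simp only [le_refl, if_true, Nat.not_succ_le_self, if_false, zero_add]
  congr 1
  refine Finset.sum_congr rfl fun j hj => ?_
  have hj' : j.val ≠ k := fun hc => (Finset.ne_of_mem_erase hj) (Fin.ext hc)
  have : k + 1 ≤ j.val ↔ k ≤ j.val := by omega
  simp [this]

/-- changing one term of a tail sum -/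
theorem Tl_update (k : ℕ) (f f' : Fin n → ℝ) (q : Fin n) (w : ℝ) (hq : f' q = f q + w)
    (hne : ∀ j, j ≠ q → f' j = f j) : Tl k f' = Tl k f + (if k ≤ q.val then w else 0) := by
  unfold Tl
  rw [← Finset.add_sum_erase _ _ (Finset.mem_univ q),
    ← Finset.add_sum_erase (a := q)
      (f := fun j : Fin n => if k ≤ j.val then f j else 0) _ (Finset.mem_univ _)]
  rw [hq, Finset.sum_congr rfl fun j hj => by rw [hne j (Finset.ne_of_mem_erase hj)]]
  split_ifs <;> ring

theorem sum_update_add (f f' : Fin n → ℝ) (q : Fin n) (w : ℝ) (hq : f' q = f q + w)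
    (hne : ∀ j, j ≠ q → f' j = f j) : ∑ j, f' j = ∑ j, f j + w := by
  have := Tl_update 0 f f' q w hq hne
  rw [Tl_zero, Tl_zero] at this
  simpa using this

/-- the number of completed blocks of every process -/
def bv (g : Fin n → LS) : Fin n → ℕ := fun j => (g j).b

/-- position in the final collect -/
def rp (s : LS) : ℕ := match s.ph with
  | .final => s.k
  | .done (some _) => n
  | _ => 0

/-- accumulator of the final collect -/
def ea (s : LS) : ℝ := match s.ph with
  | .final => s.acc
  | .done (some _) => s.acc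
  | _ => 0

namespace Par

variable (p : Par n)

/-- sum of the votes cast by a process, including a vote not yet published -/
noncomputable def A (s : LS) : ℝ := s.sum + match s.ph with
  | .pub x => sg x * p.ω s.b
  | _ => 0

/-- variance of the votes cast by a process -/
noncomputable def vr (s : LS) : ℝ := p.V s.b + match s.ph with
  | .vote => s.k * p.ω s.b ^ 2
  | .pub _ => (s.k + 1) * p.ω s.b ^ 2
  | _ => 0

/-- the vote cast in a step -/
noncomputable def wt (s : LS) (x : Bool) : ℝ := if s.ph = .vote then sg x * p.ω s.b else 0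

/-- its square -/
noncomputable def wv (s : LS) : ℝ := if s.ph = .vote then p.ω s.b ^ 2 else 0

/-- next local state of `q` -/
noncomputable def nx (g : Fin n → LS) (q : Fin n) (x : Bool) : LS :=
  match (g q).ph with
  | .vote => { g q with ph := .pub x }
  | .pub y => p.afterPub (g q) y
  | .check => p.afterCheck (g q) (g (p.Γ' q (g q).k)).b
  | .verify => p.afterVerify (g q) (g (p.idx q (g q).k)).b
  | .final => p.afterFinal (g q) (g (p.idx q (g q).k)).sum
  | .done _ => g q

/-- the configuration with given local states -/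
def cfgPd (g : Fin n → LS) : SCfg p.proto := ⟨g, fun j => ((g j).b, (g j).sum)⟩

@[simp] theorem nextB_b (s : LS) : (p.nextB s).b = s.b := by unfold nextB; split_ifs <;> rfl
@[simp] theorem nextB_sum (s : LS) : (p.nextB s).sum = s.sum := by unfold nextB; split_ifs <;> rfl
@[simp] theorem nextB_free (s : LS) : (p.nextB s).free = s.free := by
  unfold nextB; split_ifs <;> rfl
@[simp] theorem nextB_k (s : LS) : (p.nextB s).k = 0 := by
  unfold nextB; split_ifs <;> rfl

theorem nextB_ph (s : LS) : (s.b < p.B ∧ (p.nextB s).ph = .vote) ∨ (p.nextB s).ph = .done none := by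
  unfold nextB; split_ifs with h
  · exact Or.inl ⟨h, rfl⟩
  · exact Or.inr rfl

@[simp] theorem afterCheck_b (s : LS) (m : ℕ) : (p.afterCheck s m).b = s.b := by
  unfold afterCheck; split_ifs <;> simp
@[simp] theorem afterCheck_sum (s : LS) (m : ℕ) : (p.afterCheck s m).sum = s.sum := by
  unfold afterCheck; split_ifs <;> simp
@[simp] theorem afterVerify_b (s : LS) (m : ℕ) : (p.afterVerify s m).b = s.b := by
  unfold afterVerify; split_ifs <;> simp
@[simp] theorem afterVerify_sum (s : LS) (m : ℕ) : (p.afterVerify s m).sum = s.sum := by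
  unfold afterVerify; split_ifs <;> simp
@[simp] theorem afterFinal_b (s : LS) (r : ℝ) : (p.afterFinal s r).b = s.b := by
  unfold afterFinal; split_ifs <;> simp
@[simp] theorem afterFinal_sum (s : LS) (r : ℝ) : (p.afterFinal s r).sum = s.sum := by
  unfold afterFinal; split_ifs <;> simp

theorem cfgPd_update (g : Fin n → LS) (q : Fin n) (s : LS) (hb : s.b = (g q).b)
    (hs : s.sum = (g q).sum) :
    p.cfgPd (Function.update g q s) = ⟨Function.update g q s, fun j => ((g j).b, (g j).sum)⟩ := by
  unfold cfgPd
  congr 1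
  funext j
  by_cases hj : j = q
  · subst hj; simp [hb, hs]
  · simp [Function.update_of_ne hj]

theorem step_cfgPd (g : Fin n → LS) (q : Fin n) (x : Bool) :
    p.proto.step (p.cfgPd g) q x = p.cfgPd (Function.update g q (p.nx g q x)) := by
  cases hph : (g q).ph with
  | vote =>
    have h1 : p.nx g q x = { g q with ph := .pub x } := by simp [nx, hph]
    rw [h1, cfgPd_update _ _ _ _ (by simp) (by simp)]
    simp [Sub.step, cfgPd, proto, hph]
  | pub y =>
    have h1 : p.nx g q x = p.afterPub (g q) y := by simp [nx, hph]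
    rw [h1]
    simp only [Sub.step, cfgPd, proto, hph]
    congr 1
    funext j
    by_cases hj : j = q
    · subst hj; simp
    · simp [Function.update_of_ne hj]
  | check =>
    have h1 : p.nx g q x = p.afterCheck (g q) (g (p.Γ' q (g q).k)).b := by simp [nx, hph]
    rw [h1, cfgPd_update _ _ _ _ (by simp) (by simp)]
    simp [Sub.step, cfgPd, proto, hph]
  | verify =>
    have h1 : p.nx g q x = p.afterVerify (g q) (g (p.idx q (g q).k)).b := by simp [nx, hph]
    rw [h1, cfgPd_update _ _ _ _ (by simp) (by simp)]
    simp [Sub.step, cfgPd, proto, hph]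
  | final =>
    have h1 : p.nx g q x = p.afterFinal (g q) (g (p.idx q (g q).k)).sum := by simp [nx, hph]
    rw [h1, cfgPd_update _ _ _ _ (by simp) (by simp)]
    simp [Sub.step, cfgPd, proto, hph]
  | done o =>
    have h1 : p.nx g q x = g q := by simp [nx, hph]
    rw [h1, Function.update_eq_self]
    simp [Sub.step, cfgPd, proto, hph]

/-! ### facts about one step of a process -/

theorem A_nextB (s : LS) : p.A (p.nextB s) = s.sum := by
  unfold A
  rcases p.nextB_ph s with h | h
  · simp [h.2]
  · simp [h]

theorem vr_nextB (s : LS) : p.vr (p.nextB s) = p.V s.b := by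
  unfold vr
  rcases p.nextB_ph s with h | h
  · simp [h.2]
  · simp [h]

theorem A_nx (g : Fin n → LS) (q : Fin n) (x : Bool) :
    p.A (p.nx g q x) = p.A (g q) + p.wt (g q) x := by
  cases hph : (g q).ph with
  | vote => simp [nx, A, wt, hph]
  | pub y =>
    have h1 : p.nx g q x = p.afterPub (g q) y := by simp [nx, hph]
    have h2 : p.A (g q) = (g q).sum + sg y * p.ω (g q).b := by simp [A, hph]
    rw [h1, h2]
    unfold afterPub
    split_ifs
    · simp [A, wt, hph]
    · rw [A_nextB]; simp [wt, hph]
    · simp [A, wt, hph]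
  | check =>
    have h1 : p.nx g q x = p.afterCheck (g q) (g (p.Γ' q (g q).k)).b := by simp [nx, hph]
    rw [h1]
    unfold afterCheck
    split_ifs
    · simp [A, wt, hph]
    · rw [A_nextB]; simp [A, wt, hph]
    · simp [A, wt, hph]
  | verify =>
    have h1 : p.nx g q x = p.afterVerify (g q) (g (p.idx q (g q).k)).b := by simp [nx, hph]
    rw [h1]
    unfold afterVerify
    split_ifs
    · simp [A, wt, hph]
    · simp [A, wt, hph]
    · rw [A_nextB]; simp [A, wt, hph]
  | final =>
    have h1 : p.nx g q x = p.afterFinal (g q) (g (p.idx q (g q).k)).sum := by simp [nx, hph]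
    rw [h1]
    unfold afterFinal
    split_ifs <;> simp [A, wt, hph]
  | done o => simp [nx, A, wt, hph]

variable {p} {x : ℝ}

theorem OK.vr_nx (h : p.OK x) (g : Fin n → LS) (q : Fin n) (y : Bool) (hok : p.okL (g q)) :
    p.vr (p.nx g q y) = p.vr (g q) + p.wv (g q) := by
  cases hph : (g q).ph with
  | vote =>
    simp only [nx, vr, wv, hph]
    simp only [if_true]
    ring
  | pub z =>
    have h1 : p.nx g q y = p.afterPub (g q) z := by simp [nx, hph]
    have h2 : p.vr (g q) = p.V (g q).b + ((g q).k + 1) * p.ω (g q).b ^ 2 := by simp [vr, hph]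
    have h3 : p.wv (g q) = 0 := by simp [wv, hph]
    unfold okL at hok
    rw [hph] at hok
    obtain ⟨_, h4, h5⟩ := hok
    rw [h1, h2, h3]
    unfold afterPub
    split_ifs with h6 h7
    · simp [vr]
    · rw [vr_nextB]
      have h8 : ((g q).k : ℝ) + 1 = p.N (g q).b := by
        have : (g q).k + 1 = p.N (g q).b := by omega
        exact_mod_cast this
      simp only [h8, h.N_ω h4, h.V_succ, add_zero]
    · have h8 : ((g q).k : ℝ) + 1 = p.N (g q).b := by
        have : (g q).k + 1 = p.N (g q).b := by omega
        exact_mod_cast this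
      simp only [vr, h8, h.N_ω h4, h.V_succ, add_zero]
  | check =>
    have h1 : p.nx g q y = p.afterCheck (g q) (g (p.Γ' q (g q).k)).b := by simp [nx, hph]
    rw [h1]
    unfold afterCheck
    split_ifs
    · simp [vr, wv, hph]
    · rw [vr_nextB]; simp [vr, wv, hph]
    · simp [vr, wv, hph]
  | verify =>
    have h1 : p.nx g q y = p.afterVerify (g q) (g (p.idx q (g q).k)).b := by simp [nx, hph]
    rw [h1]
    unfold afterVerify
    split_ifs
    · simp [vr, wv, hph]
    · simp [vr, wv, hph]
    · rw [vr_nextB]; simp [vr, wv, hph]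
  | final =>
    have h1 : p.nx g q y = p.afterFinal (g q) (g (p.idx q (g q).k)).sum := by simp [nx, hph]
    rw [h1]
    unfold afterFinal
    split_ifs <;> simp [vr, wv, hph]
  | done o => simp [nx, vr, wv, hph]

theorem OK.okL_nx (h : p.OK x) (g : Fin n → LS) (q : Fin n) (y : Bool) (hok : p.okL (g q)) :
    p.okL (p.nx g q y) := by
  cases hph : (g q).ph with
  | vote =>
    have h1 : p.nx g q y = { g q with ph := .pub y } := by simp [nx, hph]
    rw [h1]
    unfold okL at hok
    rw [hph] at hok
    exact ⟨hok.1, hok.2.1, hok.2.2⟩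
  | pub z =>
    have h1 : p.nx g q y = p.afterPub (g q) z := by simp [nx, hph]
    rw [h1]
    unfold okL at hok
    rw [hph] at hok
    exact h.okL_afterPub hok.2.1 z
  | check =>
    have h1 : p.nx g q y = p.afterCheck (g q) (g (p.Γ' q (g q).k)).b := by simp [nx, hph]
    rw [h1]; exact h.okL_afterCheck hok hph _
  | verify =>
    have h1 : p.nx g q y = p.afterVerify (g q) (g (p.idx q (g q).k)).b := by simp [nx, hph]
    rw [h1]; exact h.okL_afterVerify hok hph _
  | final =>
    have h1 : p.nx g q y = p.afterFinal (g q) (g (p.idx q (g q).k)).sum := by simp [nx, hph]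
    rw [h1]; exact h.okL_afterFinal hok hph _
  | done o =>
    have h1 : p.nx g q y = g q := by simp [nx, hph]
    rw [h1]; exact hok

/-- the number of completed blocks changes only when the last vote of a block is published -/
theorem nx_b (g : Fin n → LS) (q : Fin n) (y : Bool) :
    (p.nx g q y).b = (g q).b ∨ ((p.nx g q y).b = (g q).b + 1 ∧ ∃ z, (g q).ph = .pub z) := by
  cases hph : (g q).ph with
  | vote => left; simp [nx, hph]
  | pub z =>
    have h1 : p.nx g q y = p.afterPub (g q) z := by simp [nx, hph]
    rw [h1]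
    unfold afterPub
    split_ifs
    · left; rfl
    · right; simp
    · right; simp
  | check => left; simp [nx, hph]
  | verify => left; simp [nx, hph]
  | final => left; simp [nx, hph]
  | done o => left; simp [nx, hph]

theorem b_le_nx (g : Fin n → LS) (q : Fin n) (y : Bool) : (g q).b ≤ (p.nx g q y).b := by
  rcases nx_b (p := p) g q y with h | h
  · exact h.ge
  · rw [h.1]; exact Nat.le_succ _

theorem bv_le_update (g : Fin n → LS) (q : Fin n) (y : Bool) (j : Fin n) :
    (g j).b ≤ ((Function.update g q (p.nx g q y)) j).b := by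
  by_cases hj : j = q
  · subst hj; simp only [Function.update_self]; exact b_le_nx g j y
  · simp [Function.update_of_ne hj]

end Par

/-- ghost configuration -/
structure Gh (n : ℕ) where
  /-- local states (they determine the registers) -/
  pd : Fin n → LS
  /-- some verification has succeeded -/
  tau : Bool
  /-- sum of the votes cast before `tau` -/
  z : ℝ
  /-- variance of the votes cast before `tau` -/
  s : ℝ
  /-- sum of the votes cast after `tau` and before `P` reads the register of the voter -/
  D : Fin n → ℝ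
  /-- variance of the votes cast after `tau` and before `P` reads the register of the voter -/
  Q : Fin n → ℝ
  /-- the last vector with clock below `1 - 4 ε` -/
  blow : Fin n → ℕ
  /-- the clock has reached `1 + 4 ε` -/
  hit : Bool
  /-- the first vector with clock at least `1 + 4 ε` (the current one before) -/
  b1 : Fin n → ℕ
  /-- the vector at the start of the verification of a process -/
  gs : Fin n → Fin n → ℕ

namespace Par

variable (p : Par n)

open Classical in
/-- update of the ghost configuration -/
noncomputable def gstep (g : Gh n) (q : Fin n) (x : Bool) : Gh n where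
  pd := Function.update g.pd q (p.nx g.pd q x)
  tau := g.tau || decide ((p.nx g.pd q x).ph = .final)
  z := if g.tau then g.z else g.z + p.wt (g.pd q) x
  s := if g.tau then g.s else g.s + p.wv (g.pd q)
  D := fun P => if g.tau = true ∧ rp (n := n) (g.pd P) ≤ q.val then g.D P + p.wt (g.pd q) x else g.D P
  Q := fun P => if g.tau = true ∧ rp (n := n) (g.pd P) ≤ q.val then g.Q P + p.wv (g.pd q) else g.Q P
  blow := if p.Ψ (bv (Function.update g.pd q (p.nx g.pd q x))) < 1 - 4 * p.ε then
    bv (Function.update g.pd q (p.nx g.pd q x)) else g.blow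
  hit := g.hit || decide (1 + 4 * p.ε ≤ p.Ψ (bv (Function.update g.pd q (p.nx g.pd q x))))
  b1 := if g.hit then g.b1 else bv (Function.update g.pd q (p.nx g.pd q x))
  gs := if (g.pd q).ph = .check ∧ (p.nx g.pd q x).ph = .verify then
    Function.update g.gs q (bv (Function.update g.pd q (p.nx g.pd q x))) else g.gs

/-- initial ghost configuration -/
noncomputable def ginit : Gh n where
  pd := fun _ => ⟨.vote, 0, 0, 0, 0, false⟩
  tau := false
  z := 0
  s := 0
  D := fun _ => 0
  Q := fun _ => 0
  blow := fun _ => 0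
  hit := false
  b1 := fun _ => 0
  gs := fun _ _ => 0

/-- ghost configuration of a history -/
noncomputable def gh (h : List (Fin n × Bool)) : Gh n := h.foldl (fun g e => p.gstep g e.1 e.2) ginit

@[simp] theorem gh_nil : p.gh [] = ginit := rfl

theorem gh_snoc (h : List (Fin n × Bool)) (e : Fin n × Bool) :
    p.gh (h ++ [e]) = p.gstep (p.gh h) e.1 e.2 := by
  simp [gh, List.foldl_append]

theorem cfg_eq (h : List (Fin n × Bool)) : p.proto.cfg h = p.cfgPd (p.gh h).pd := by
  induction h using List.reverseRecOn with
  | nil => rfl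
  | append_singleton h e ih =>
    rw [Sub.cfg_snoc, ih, step_cfgPd, gh_snoc]
    rfl

theorem isFlip_iff (h : List (Fin n × Bool)) (i : Fin n) :
    p.proto.IsFlip (p.proto.cfg h) i ↔ ((p.gh h).pd i).ph = .vote := by
  rw [cfg_eq]
  unfold Sub.IsFlip
  constructor
  · rintro ⟨next, hn⟩
    cases hph : ((p.gh h).pd i).ph <;> simp [cfgPd, proto, hph] at hn ⊢
  · intro hph
    exact ⟨fun x => { (p.gh h).pd i with ph := .pub x }, by simp [cfgPd, proto, hph]⟩

theorem outs_iff (h : List (Fin n × Bool)) (i : Fin n) (o : Option Bool) :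
    p.proto.Outs h i o ↔ ((p.gh h).pd i).ph = .done o := by
  unfold Sub.Outs
  rw [cfg_eq]
  cases hph : ((p.gh h).pd i).ph <;> simp [cfgPd, proto, hph]

end Par

end RC.SOne
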