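import Pool.Agent.H25.RC.Ghost

/-!
# Stage 1 of the coin: the deterministic invariants
-/

namespace RC.SOne

open Finset

variable {n : ℕ}

namespace Par

/-- all possible steps of process `q` -/
inductive Tr (p : Par n) (g : Fin n → LS) (q : Fin n) (x : Bool) : LS → Prop
  | vote (h : (g q).ph = .vote) : Tr p g q x { g q with ph := .pub x }
  | pub1 (y : Bool) (h : (g q).ph = .pub y) (h1 : (g q).k + 1 < p.N (g q).b) :
      Tr p g q x { g q with ph := .vote, k := (g q).k + 1, sum := (g q).sum + sg y * p.ω (g q).b }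
  | pub2 (y : Bool) (h : (g q).ph = .pub y) (h1 : ¬ (g q).k + 1 < p.N (g q).b)
      (h2 : (g q).free = true) (h3 : (g q).b + 1 < p.B) :
      Tr p g q x { g q with ph := .vote, b := (g q).b + 1, k := 0, sum := (g q).sum + sg y * p.ω (g q).b }
  | pub3 (y : Bool) (h : (g q).ph = .pub y) (h1 : ¬ (g q).k + 1 < p.N (g q).b)
      (h2 : (g q).free = true) (h3 : ¬ (g q).b + 1 < p.B) :
      Tr p g q x { g q with ph := .done none, b := (g q).b + 1, k := 0, sum := (g q).sum + sg y * p.ω (g q).b }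
  | pub4 (y : Bool) (h : (g q).ph = .pub y) (h1 : ¬ (g q).k + 1 < p.N (g q).b)
      (h2 : (g q).free = false) :
      Tr p g q x { g q with ph := .check, b := (g q).b + 1, k := 0, sum := (g q).sum + sg y * p.ω (g q).b, acc := 0 }
  | chk1 (h : (g q).ph = .check) (h1 : (g q).k + 1 < p.d) :
      Tr p g q x { g q with k := (g q).k + 1, acc := (g q).acc + p.V (g (p.Γ' q (g q).k)).b }
  | chk2 (h : (g q).ph = .check) (h1 : ¬ (g q).k + 1 < p.d)
      (h2 : (n : ℝ) * ((g q).acc + p.V (g (p.Γ' q (g q).k)).b) < p.d) (h3 : (g q).b < p.B) :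
      Tr p g q x { g q with ph := .vote, k := 0 }
  | chk3 (h : (g q).ph = .check) (h1 : ¬ (g q).k + 1 < p.d)
      (h2 : (n : ℝ) * ((g q).acc + p.V (g (p.Γ' q (g q).k)).b) < p.d) (h3 : ¬ (g q).b < p.B) :
      Tr p g q x { g q with ph := .done none, k := 0 }
  | chk4 (h : (g q).ph = .check) (h1 : ¬ (g q).k + 1 < p.d)
      (h2 : ¬ (n : ℝ) * ((g q).acc + p.V (g (p.Γ' q (g q).k)).b) < p.d) :
      Tr p g q x { g q with ph := .verify, k := 0, acc := 0 }
  | ver1 (h : (g q).ph = .verify) (hk : (g q).k < n) (h1 : (g q).k + 1 < n) :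
      Tr p g q x { g q with k := (g q).k + 1, acc := (g q).acc + p.V (g ⟨(g q).k, hk⟩).b }
  | ver2 (h : (g q).ph = .verify) (hk : (g q).k < n) (h1 : ¬ (g q).k + 1 < n)
      (h2 : 1 - 4 * p.ε ≤ (g q).acc + p.V (g ⟨(g q).k, hk⟩).b) :
      Tr p g q x { g q with ph := .final, k := 0, acc := 0 }
  | ver3 (h : (g q).ph = .verify) (hk : (g q).k < n) (h1 : ¬ (g q).k + 1 < n)
      (h2 : ¬ 1 - 4 * p.ε ≤ (g q).acc + p.V (g ⟨(g q).k, hk⟩).b) (h3 : (g q).b < p.B) :
      Tr p g q x { g q with ph := .vote, k := 0, free := true }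
  | ver4 (h : (g q).ph = .verify) (hk : (g q).k < n) (h1 : ¬ (g q).k + 1 < n)
      (h2 : ¬ 1 - 4 * p.ε ≤ (g q).acc + p.V (g ⟨(g q).k, hk⟩).b) (h3 : ¬ (g q).b < p.B) :
      Tr p g q x { g q with ph := .done none, k := 0, free := true }
  | fin1 (h : (g q).ph = .final) (hk : (g q).k < n) (h1 : (g q).k + 1 < n) :
      Tr p g q x { g q with k := (g q).k + 1, acc := (g q).acc + (g ⟨(g q).k, hk⟩).sum }
  | fin2 (h : (g q).ph = .final) (hk : (g q).k < n) (h1 : ¬ (g q).k + 1 < n) :
      Tr p g q x { g q with ph := .done (some (decide (0 < (g q).acc + (g ⟨(g q).k, hk⟩).sum))), acc := (g q).acc + (g ⟨(g q).k, hk⟩).sum }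
  | done (o : Option Bool) (h : (g q).ph = .done o) : Tr p g q x (g q)

variable (p : Par n)

theorem tr (g : Fin n → LS) (q : Fin n) (x : Bool) (hok : p.okL (g q)) :
    Tr p g q x (p.nx g q x) := by
  have hok' := hok
  unfold okL at hok'
  cases hph : (g q).ph with
  | vote =>
    rw [show p.nx g q x = { g q with ph := .pub x } by simp [nx, hph]]
    exact .vote hph
  | pub z =>
    rw [show p.nx g q x = p.afterPub (g q) z by simp [nx, hph]]
    unfold afterPub nextB
    split_ifs with h1 h2 h3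
    · exact .pub1 z hph h1
    · exact .pub2 z hph h1 h2 h3
    · exact .pub3 z hph h1 h2 h3
    · exact .pub4 z hph h1 (by simpa using h2)
  | check =>
    rw [show p.nx g q x = p.afterCheck (g q) (g (p.Γ' q (g q).k)).b by simp [nx, hph]]
    unfold afterCheck nextB
    split_ifs with h1 h2 h3
    · exact .chk1 hph h1
    · exact .chk2 hph h1 h2 h3
    · exact .chk3 hph h1 h2 h3
    · exact .chk4 hph h1 h2
  | verify =>
    rw [hph] at hok'
    have hk : (g q).k < n := hok'.2.1
    rw [show p.nx g q x = p.afterVerify (g q) (g ⟨(g q).k, hk⟩).b by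
      simp only [nx, hph, idx, dif_pos hk]]
    unfold afterVerify nextB
    split_ifs with h1 h2 h3
    · exact .ver1 hph hk h1
    · exact .ver2 hph hk h1 h2
    · exact .ver3 hph hk h1 h2 h3
    · exact .ver4 hph hk h1 h2 h3
  | final =>
    rw [hph] at hok'
    have hk : (g q).k < n := hok'.2.1
    rw [show p.nx g q x = p.afterFinal (g q) (g ⟨(g q).k, hk⟩).sum by
      simp only [nx, hph, idx, dif_pos hk]]
    unfold afterFinal
    split_ifs with h1
    · exact .fin1 hph hk h1
    · have := Tr.fin2 (x := x) (p := p) hph hk h1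
      convert this
  | done o =>
    rw [show p.nx g q x = g q by simp [nx, hph]]
    exact .done o hph

/-- behaviour of a process which does not misjudge, after the clock has reached `1 + 4 ε` -/
def nrmL (g : Gh n) (q : Fin n) : Prop :=
  (g.pd q).b ≤ g.b1 q ∨ ((g.pd q).b = g.b1 q + 1 ∧ (∀ y, (g.pd q).ph ≠ .pub y) ∧
    (g.pd q).ph ≠ .vote ∧
    ((g.pd q).ph = .check → ∑ i ∈ range (g.pd q).k, p.V (g.b1 (p.Γ' q i)) ≤ (g.pd q).acc) ∧
    ((g.pd q).ph = .verify → ∀ j, g.b1 j ≤ g.gs q j))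

/-- the deterministic invariants -/
structure Inv (g : Gh n) : Prop where
  ok : ∀ q, p.okL (g.pd q)
  low1 : p.Ψ g.blow < 1 - 4 * p.ε
  low2 : p.Ψ (bv g.pd) < 1 - 4 * p.ε → g.blow = bv g.pd
  low3 : ∀ j, g.blow j ≤ (g.pd j).b
  chk : ∀ q, (g.pd q).ph = .check →
    (g.pd q).acc ≤ ∑ i ∈ range (g.pd q).k, p.V (g.pd (p.Γ' q i)).b
  ver : ∀ q, (g.pd q).ph = .verify →
    (p.d : ℝ) ≤ n * ∑ i ∈ range p.d, p.V (g.gs q (p.Γ' q i)) ∧
    (∀ j, g.gs q j ≤ (g.pd j).b) ∧
    (p.Ψ (g.gs q) < 1 - 4 * p.ε → ∀ j, g.gs q j ≤ g.blow j) ∧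
    Hd (g.pd q).k (fun j => p.V (g.gs q j)) ≤ (g.pd q).acc ∧
    (g.pd q).acc ≤ Hd (g.pd q).k (fun j => p.V (g.pd j).b)
  fre : ∀ q, (g.pd q).free = true → (p.d : ℝ) ≤ n * ∑ i ∈ range p.d, p.V (g.blow (p.Γ' q i))
  hit1 : g.hit = true → 1 + 4 * p.ε ≤ p.Ψ g.b1 ∧ p.Ψ g.b1 ≤ p.Ψm ∧ ∀ j, g.b1 j ≤ (g.pd j).b
  hit0 : g.hit = false → p.Ψ (bv g.pd) < 1 + 4 * p.ε ∧ g.b1 = bv g.pd
  nrm : g.hit = true → ∀ q, (g.pd q).free = false → q ∉ p.bad g.b1 → p.nrmL g q

variable {p} {x : ℝ}

theorem OK.inv_init (h : p.OK x) : p.Inv ginit := by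
  have h0 : p.Ψ (fun _ => 0) = 0 := by simp [Ψ, V_zero]
  have hε := h.ε_le
  have hε' := h.ε_pos
  refine ⟨fun q => ⟨Nat.zero_le _, h.B_pos, h.N_pos _ h.B_pos⟩, ?_, fun _ => rfl, fun j => le_rfl,
    fun q hq => ?_, fun q hq => ?_, fun q hq => ?_, fun hq => ?_, fun _ => ⟨?_, rfl⟩, fun hq => ?_⟩
  · simp only [ginit]; rw [h0]; linarith
  · simp [ginit] at hq
  · simp [ginit] at hq
  · simp [ginit] at hq
  · simp [ginit] at hq
  · have : p.Ψ (bv (ginit (n := n)).pd) = 0 := h0
    rw [this]; linarith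
  · simp [ginit] at hq

section Step

variable {g : Gh n} (q : Fin n) (y : Bool)

theorem gstep_pd : (p.gstep g q y).pd = Function.update g.pd q (p.nx g.pd q y) := rfl

theorem gstep_pd_self : (p.gstep g q y).pd q = p.nx g.pd q y := by simp [gstep]

theorem gstep_pd_ne {P : Fin n} (hP : P ≠ q) : (p.gstep g q y).pd P = g.pd P := by
  simp [gstep, Function.update_of_ne hP]

theorem gstep_b_le (j : Fin n) : (g.pd j).b ≤ ((p.gstep g q y).pd j).b :=
  bv_le_update g.pd q y j

theorem blow_le (hg : p.Inv g) (j : Fin n) : g.blow j ≤ (p.gstep g q y).blow j := by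
  unfold gstep
  simp only
  split_ifs with h1
  · exact (hg.low3 j).trans (bv_le_update g.pd q y j)
  · exact le_rfl

theorem gstep_gs_ne {P : Fin n} (hP : P ≠ q) : (p.gstep g q y).gs P = g.gs P := by
  unfold gstep
  simp only
  split_ifs with h1
  · simp [Function.update_of_ne hP]
  · rfl

theorem gstep_gs_self (h1 : (g.pd q).ph ≠ .check) : (p.gstep g q y).gs q = g.gs q := by
  unfold gstep
  simp only
  rw [if_neg (fun hc => h1 hc.1)]

theorem gstep_gs_new (h1 : (g.pd q).ph = .check) (h2 : (p.nx g.pd q y).ph = .verify) :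
    (p.gstep g q y).gs q = bv (p.gstep g q y).pd := by
  unfold gstep
  simp only
  rw [if_pos ⟨h1, h2⟩]
  simp

theorem OK.sum_V_mono (h : p.OK x) (s : Finset ℕ) (P : Fin n) {f f' : Fin n → ℕ}
    (hf : ∀ j, f j ≤ f' j) : ∑ i ∈ s, p.V (f (p.Γ' P i)) ≤ ∑ i ∈ s, p.V (f' (p.Γ' P i)) :=
  Finset.sum_le_sum fun i _ => h.V_mono (hf _)

theorem OK.step_chk (h : p.OK x) (hg : p.Inv g) (P : Fin n)
    (hP : ((p.gstep g q y).pd P).ph = .check) :
    ((p.gstep g q y).pd P).acc ≤
      ∑ i ∈ range ((p.gstep g q y).pd P).k, p.V ((p.gstep g q y).pd (p.Γ' P i)).b := by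
  have hmono := fun s => h.sum_V_mono s P (gstep_b_le (p := p) (g := g) q y)
  by_cases hPq : P = q
  · subst hPq
    rw [gstep_pd_self] at hP ⊢
    have htr := p.tr g.pd P y (hg.ok P)
    generalize hs : p.nx g.pd P y = s' at hP htr ⊢
    refine le_trans ?_ (hmono _)
    cases htr with
    | vote h1 => simp at hP
    | pub1 z h1 h2 => simp at hP
    | pub2 z h1 h2 h3 h4 => simp at hP
    | pub3 z h1 h2 h3 h4 => simp at hP
    | pub4 z h1 h2 h3 => simp
    | chk1 h1 h2 =>
      simp only [Finset.sum_range_succ]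
      have := hg.chk P h1
      linarith
    | chk2 h1 h2 h3 h4 => simp at hP
    | chk3 h1 h2 h3 h4 => simp at hP
    | chk4 h1 h2 h3 => simp at hP
    | ver1 h1 h2 h3 => simp [h1] at hP
    | ver2 h1 h2 h3 h4 => simp at hP
    | ver3 h1 h2 h3 h4 h5 => simp at hP
    | ver4 h1 h2 h3 h4 h5 => simp at hP
    | fin1 h1 h2 h3 => simp [h1] at hP
    | fin2 h1 h2 h3 => simp at hP
    | done o h1 => simp [h1] at hP
  · rw [gstep_pd_ne q y hPq] at hP ⊢
    exact (hg.chk P hP).trans (hmono _)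

theorem OK.step_ver (h : p.OK x) (hg : p.Inv g) (P : Fin n)
    (hP : ((p.gstep g q y).pd P).ph = .verify) :
    (p.d : ℝ) ≤ n * ∑ i ∈ range p.d, p.V ((p.gstep g q y).gs P (p.Γ' P i)) ∧
    (∀ j, (p.gstep g q y).gs P j ≤ ((p.gstep g q y).pd j).b) ∧
    (p.Ψ ((p.gstep g q y).gs P) < 1 - 4 * p.ε →
      ∀ j, (p.gstep g q y).gs P j ≤ (p.gstep g q y).blow j) ∧
    Hd ((p.gstep g q y).pd P).k (fun j => p.V ((p.gstep g q y).gs P j)) ≤
      ((p.gstep g q y).pd P).acc ∧
    ((p.gstep g q y).pd P).acc ≤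
      Hd ((p.gstep g q y).pd P).k (fun j => p.V ((p.gstep g q y).pd j).b) := by
  have hmono := fun s => h.sum_V_mono s P (gstep_b_le (p := p) (g := g) q y)
  have hmonoH := fun k => Hd_mono k fun j => h.V_mono (gstep_b_le (p := p) (g := g) q y j)
  have hble := blow_le (p := p) (g := g) q y hg
  have hb := gstep_b_le (p := p) (g := g) q y
  by_cases hPq : P = q
  · subst hPq
    have htr := p.tr g.pd P y (hg.ok P)
    have hself := gstep_pd_self (p := p) (g := g) P y
    rw [hself] at hP ⊢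
    have hgs0 := gstep_gs_self (p := p) (g := g) P y
    have hgs1 := gstep_gs_new (p := p) (g := g) P y
    generalize hs : p.nx g.pd P y = s' at hP htr hgs1 ⊢
    cases htr with
    | vote h1 => simp at hP
    | pub1 z h1 h2 => simp at hP
    | pub2 z h1 h2 h3 h4 => simp at hP
    | pub3 z h1 h2 h3 h4 => simp at hP
    | pub4 z h1 h2 h3 => simp at hP
    | chk1 h1 h2 => simp [h1] at hP
    | chk2 h1 h2 h3 h4 => simp at hP
    | chk3 h1 h2 h3 h4 => simp at hP
    | chk4 h1 h2 h3 =>
      rw [hgs1 h1 rfl]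
      have hok := hg.ok P
      unfold okL at hok
      rw [h1] at hok
      have hkd : (g.pd P).k + 1 = p.d := by have := hok.2.1; omega
      have hacc := hg.chk P h1
      have h4 : (p.d : ℝ) ≤ n * ∑ i ∈ range p.d, p.V (g.pd (p.Γ' P i)).b := by
        rw [← hkd, Finset.sum_range_succ, hkd]
        have h5 := not_lt.mp h3
        refine h5.trans ?_
        apply mul_le_mul_of_nonneg_left _ h.nR.le
        linarith
      refine ⟨h4.trans (mul_le_mul_of_nonneg_left (hmono _) h.nR.le), fun j => le_rfl, ?_, ?_, ?_⟩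
      · intro hΨ j
        have : (p.gstep g P y).blow = bv (p.gstep g P y).pd := by
          unfold gstep at hΨ ⊢
          simp only at hΨ ⊢
          rw [if_pos hΨ]
        rw [this]
      · simp [Hd_zero]
      · simp [Hd_zero]
    | ver1 h1 hk h2 =>
      rw [hgs0 (by simp [h1])]
      obtain ⟨v1, v2, v3, v4, v5⟩ := hg.ver P h1
      refine ⟨v1, fun j => (v2 j).trans (hb j), fun hc j => (v3 hc j).trans (hble j), ?_, ?_⟩
      · show Hd ((g.pd P).k + 1) _ ≤ (g.pd P).acc + p.V (g.pd ⟨(g.pd P).k, hk⟩).b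
        rw [Hd_succ hk]
        have := h.V_mono (v2 ⟨(g.pd P).k, hk⟩)
        linarith
      · refine le_trans ?_ (hmonoH _)
        show (g.pd P).acc + p.V (g.pd ⟨(g.pd P).k, hk⟩).b ≤ Hd ((g.pd P).k + 1) _
        rw [Hd_succ hk]
        linarith
    | ver2 h1 h2 h3 h4 => simp at hP
    | ver3 h1 h2 h3 h4 h5 => simp at hP
    | ver4 h1 h2 h3 h4 h5 => simp at hP
    | fin1 h1 h2 h3 => simp [h1] at hP
    | fin2 h1 h2 h3 => simp at hP
    | done o h1 => simp [h1] at hP
  · rw [gstep_pd_ne q y hPq] at hP ⊢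
    rw [gstep_gs_ne q y hPq]
    obtain ⟨v1, v2, v3, v4, v5⟩ := hg.ver P hP
    exact ⟨v1, fun j => (v2 j).trans (hb j), fun hc j => (v3 hc j).trans (hble j), v4,
      v5.trans (hmonoH _)⟩

theorem OK.step_fre (h : p.OK x) (hg : p.Inv g) (P : Fin n)
    (hP : ((p.gstep g q y).pd P).free = true) :
    (p.d : ℝ) ≤ n * ∑ i ∈ range p.d, p.V ((p.gstep g q y).blow (p.Γ' P i)) := by
  have hble := blow_le (p := p) (g := g) q y hg
  have hm : ∀ f : Fin n → ℕ, (∀ j, f j ≤ (p.gstep g q y).blow j) →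
      (p.d : ℝ) ≤ n * ∑ i ∈ range p.d, p.V (f (p.Γ' P i)) →
      (p.d : ℝ) ≤ n * ∑ i ∈ range p.d, p.V ((p.gstep g q y).blow (p.Γ' P i)) := fun f hf h1 =>
    h1.trans (mul_le_mul_of_nonneg_left (h.sum_V_mono _ P hf) h.nR.le)
  by_cases hPq : P = q
  · subst hPq
    by_cases hf : (g.pd P).free = true
    · exact hm _ hble (hg.fre P hf)
    · have htr := p.tr g.pd P y (hg.ok P)
      rw [gstep_pd_self] at hP
      generalize hs : p.nx g.pd P y = s' at hP htr
      have key : ∀ (h1 : (g.pd P).ph = .verify) (hk : (g.pd P).k < n) (_ : ¬ (g.pd P).k + 1 < n)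
          (_ : ¬ 1 - 4 * p.ε ≤ (g.pd P).acc + p.V (g.pd ⟨(g.pd P).k, hk⟩).b),
          (p.d : ℝ) ≤ n * ∑ i ∈ range p.d, p.V ((p.gstep g P y).blow (p.Γ' P i)) := by
        intro h1 hk h3 h4
        obtain ⟨v1, v2, v3, v4, v5⟩ := hg.ver P h1
        have hkn : n ≤ (g.pd P).k + 1 := by omega
        have h5 : p.Ψ (g.gs P) ≤ (g.pd P).acc + p.V (g.pd ⟨(g.pd P).k, hk⟩).b := by
          unfold Ψ
          rw [← Hd_full hkn, Hd_succ hk]
          have := h.V_mono (v2 ⟨(g.pd P).k, hk⟩)
          linarith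
        have h6 : p.Ψ (g.gs P) < 1 - 4 * p.ε := lt_of_le_of_lt h5 (not_le.mp h4)
        exact hm _ (fun j => (v3 h6 j).trans (hble j)) v1
      cases htr with
      | ver3 h1 h2 h3 h4 h5 => exact key h1 h2 h3 h4
      | ver4 h1 h2 h3 h4 h5 => exact key h1 h2 h3 h4
      | _ => exact absurd hP hf
  · rw [gstep_pd_ne q y hPq] at hP
    exact hm _ hble (hg.fre P hP)

theorem gstep_hit : (p.gstep g q y).hit = (g.hit ||
    @decide (1 + 4 * p.ε ≤ p.Ψ (bv (p.gstep g q y).pd)) (Classical.propDecidable _)) := rfl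

theorem gstep_b1_of_hit (hh : g.hit = true) : (p.gstep g q y).b1 = g.b1 := by
  unfold gstep; simp [hh]

theorem gstep_b1_of_not (hh : g.hit = false) : (p.gstep g q y).b1 = bv (p.gstep g q y).pd := by
  unfold gstep; simp [hh]

theorem OK.Ψ_step (h : p.OK x) (hg : p.Inv g) :
    p.Ψ (bv (p.gstep g q y).pd) ≤ p.Ψ (bv g.pd) + p.η * p.u p.B := by
  have h1 : p.Ψ (bv (p.gstep g q y).pd) =
      p.Ψ (bv g.pd) + (p.V (p.nx g.pd q y).b - p.V (g.pd q).b) := by
    unfold Ψ
    refine sum_update_add _ _ q _ ?_ ?_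
    · simp [bv, gstep]
    · intro j hj
      simp [bv, gstep, Function.update_of_ne hj]
  rw [h1]
  have h2 : p.V (p.nx g.pd q y).b - p.V (g.pd q).b ≤ p.η * p.u p.B := by
    have hu : 0 ≤ p.η * p.u p.B := mul_nonneg h.η_pos.le (h.u_pos _).le
    rcases nx_b (p := p) g.pd q y with h3 | h3
    · rw [h3]; linarith
    · rw [h3.1, h.V_succ]
      have h4 : p.u (g.pd q).b ≤ p.u p.B := h.u_mono (hg.ok q).1
      have := mul_le_mul_of_nonneg_left h4 h.η_pos.le
      linarith
  linarith

theorem OK.step_hit1 (h : p.OK x) (hg : p.Inv g) (hh : (p.gstep g q y).hit = true) :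
    1 + 4 * p.ε ≤ p.Ψ (p.gstep g q y).b1 ∧ p.Ψ (p.gstep g q y).b1 ≤ p.Ψm ∧
      ∀ j, (p.gstep g q y).b1 j ≤ ((p.gstep g q y).pd j).b := by
  cases hg0 : g.hit with
  | true =>
    rw [gstep_b1_of_hit q y hg0]
    obtain ⟨h1, h2, h3⟩ := hg.hit1 hg0
    exact ⟨h1, h2, fun j => (h3 j).trans (gstep_b_le q y j)⟩
  | false =>
    rw [gstep_hit, hg0] at hh
    rw [gstep_b1_of_not q y hg0]
    have h1 : 1 + 4 * p.ε ≤ p.Ψ (bv (p.gstep g q y).pd) := by simpa using hh
    refine ⟨h1, ?_, fun j => le_rfl⟩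
    have h2 := h.Ψ_step q y hg
    have h3 := (hg.hit0 hg0).1
    unfold Ψm
    linarith

theorem OK.step_hit0 (_h : p.OK x) (hh : (p.gstep g q y).hit = false) :
    p.Ψ (bv (p.gstep g q y).pd) < 1 + 4 * p.ε ∧ (p.gstep g q y).b1 = bv (p.gstep g q y).pd := by
  rw [gstep_hit] at hh
  have h1 : g.hit = false := by
    cases hc : g.hit with
    | true => simp [hc] at hh
    | false => rfl
  refine ⟨?_, gstep_b1_of_not q y h1⟩
  rw [h1] at hh
  simpa using hh

theorem OK.check_succeeds (h : p.OK x) (hg : p.Inv g) (hh : g.hit = true) (hq : q ∉ p.bad g.b1)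
    {a : ℝ} (ha : ∑ i ∈ range p.d, p.V (g.b1 (p.Γ' q i)) ≤ a) : (p.d : ℝ) ≤ n * a := by
  obtain ⟨h1, h2, h3⟩ := hg.hit1 hh
  have hβ : ∀ j, g.b1 j ≤ p.B := fun j => (h3 j).trans (hg.ok j).1
  have h4 := h.est hβ hq
  have h5 := (abs_le.mp h4).1
  have hd := h.dR
  have h6 : (n : ℝ) * ∑ i ∈ range p.d, p.V (g.b1 (p.Γ' q i)) ≤ n * a :=
    mul_le_mul_of_nonneg_left ha h.nR.le
  have hε := h.ε_pos
  have hε' := h.ε_le
  have h7 : (1 : ℝ) ≤ p.Ψ g.b1 - p.ε * (p.Ψ g.b1 + 1) := by nlinarith
  have h8 : (p.d : ℝ) ≤ p.d * (p.Ψ g.b1 - p.ε * (p.Ψ g.b1 + 1)) := by nlinarith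
  nlinarith

theorem OK.step_nrm (h : p.OK x) (hg : p.Inv g) (hh : (p.gstep g q y).hit = true) (P : Fin n)
    (hfree : ((p.gstep g q y).pd P).free = false) (hbad : P ∉ p.bad (p.gstep g q y).b1) :
    p.nrmL (p.gstep g q y) P := by
  cases hg0 : g.hit with
  | false =>
    left
    rw [gstep_b1_of_not q y hg0]
    exact le_rfl
  | true =>
    have hb1 := gstep_b1_of_hit (p := p) q y hg0
    rw [hb1] at hbad
    obtain ⟨hh1, hh2, hh3⟩ := hg.hit1 hg0
    by_cases hPq : P = q
    · subst hPq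
      have htr := p.tr g.pd P y (hg.ok P)
      have hgs0 := gstep_gs_self (p := p) (g := g) P y
      have hgs1 := gstep_gs_new (p := p) (g := g) P y
      have hble := gstep_b_le (p := p) (g := g) P y
      have hok := hg.ok P
      unfold okL at hok
      unfold nrmL
      rw [hb1]
      rw [gstep_pd_self] at hfree ⊢
      generalize hs : p.nx g.pd P y = s' at hfree htr hgs1 ⊢
      have hold : (g.pd P).free = false → p.nrmL g P := fun hc => hg.nrm hg0 P hc hbad
      cases htr with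
      | vote h1 =>
        rcases hold hfree with h2 | h2
        · exact Or.inl h2
        · exact absurd h1 h2.2.2.1
      | pub1 z h1 h2 =>
        rcases hold hfree with h3 | h3
        · exact Or.inl h3
        · exact absurd h1 (h3.2.1 z)
      | pub2 z h1 h2 h3 h4 => simp [h3] at hfree
      | pub3 z h1 h2 h3 h4 => simp [h3] at hfree
      | pub4 z h1 h2 h3 =>
        rcases hold hfree with h4 | h4
        · rcases Nat.lt_or_ge (g.pd P).b (g.b1 P) with h5 | h5
          · left; exact h5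
          · right
            refine ⟨?_, by simp, by simp, ?_, by simp⟩
            · simp only; omega
            · intro _; simp
        · exact absurd h1 (h4.2.1 z)
      | chk1 h1 h2 =>
        rcases hold hfree with h3 | h3
        · left; exact h3
        · right
          obtain ⟨a1, a2, a3, a4, a5⟩ := h3
          refine ⟨a1, a2, a3, ?_, ?_⟩
          · intro _
            simp only [Finset.sum_range_succ]
            have := a4 h1
            have := h.V_mono (hh3 (p.Γ' P (g.pd P).k))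
            linarith
          · intro hc; simp [h1] at hc
      | chk2 h1 h2 h3 h4 =>
        rcases hold hfree with h5 | h5
        · left; exact h5
        · exfalso
          obtain ⟨a1, a2, a3, a4, a5⟩ := h5
          rw [h1] at hok
          have hkd : (g.pd P).k + 1 = p.d := by have := hok.2.1; omega
          have h6 := a4 h1
          have h7 := h.V_mono (hh3 (p.Γ' P (g.pd P).k))
          have h8 : ∑ i ∈ range p.d, p.V (g.b1 (p.Γ' P i)) ≤
              (g.pd P).acc + p.V (g.pd (p.Γ' P (g.pd P).k)).b := by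
            rw [← hkd, Finset.sum_range_succ]
            linarith
          have := h.check_succeeds P hg hg0 hbad h8
          linarith
      | chk3 h1 h2 h3 h4 =>
        rcases hold hfree with h5 | h5
        · left; exact h5
        · exfalso
          obtain ⟨a1, a2, a3, a4, a5⟩ := h5
          rw [h1] at hok
          have hkd : (g.pd P).k + 1 = p.d := by have := hok.2.1; omega
          have h6 := a4 h1
          have h7 := h.V_mono (hh3 (p.Γ' P (g.pd P).k))
          have h8 : ∑ i ∈ range p.d, p.V (g.b1 (p.Γ' P i)) ≤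
              (g.pd P).acc + p.V (g.pd (p.Γ' P (g.pd P).k)).b := by
            rw [← hkd, Finset.sum_range_succ]
            linarith
          have := h.check_succeeds P hg hg0 hbad h8
          linarith
      | chk4 h1 h2 h3 =>
        rcases hold hfree with h5 | h5
        · left; exact h5
        · right
          obtain ⟨a1, a2, a3, a4, a5⟩ := h5
          refine ⟨a1, by simp, by simp, by simp, ?_⟩
          intro _ j
          rw [hgs1 h1 rfl]
          exact (hh3 j).trans (hble j)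
      | ver1 h1 hk h2 =>
        rcases hold hfree with h3 | h3
        · left; exact h3
        · right
          obtain ⟨a1, a2, a3, a4, a5⟩ := h3
          refine ⟨a1, a2, a3, ?_, ?_⟩
          · intro hc; simp [h1] at hc
          · intro _
            rw [hgs0 (by simp [h1])]
            exact a5 h1
      | ver2 h1 h2 h3 h4 =>
        rcases hold hfree with h5 | h5
        · left; exact h5
        · right
          exact ⟨h5.1, by simp, by simp, by simp, by simp⟩
      | ver3 h1 h2 h3 h4 h5 => simp at hfree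
      | ver4 h1 h2 h3 h4 h5 => simp at hfree
      | fin1 h1 h2 h3 =>
        rcases hold hfree with h5 | h5
        · left; exact h5
        · right
          exact ⟨h5.1, by simp [h1], by simp [h1], by simp [h1], by simp [h1]⟩
      | fin2 h1 h2 h3 =>
        rcases hold hfree with h5 | h5
        · left; exact h5
        · right
          exact ⟨h5.1, by simp, by simp, by simp, by simp⟩
      | done o h1 =>
        rcases hold hfree with h5 | h5
        · left; exact h5
        · right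
          exact ⟨h5.1, by simp [h1], by simp [h1], by simp [h1], by simp [h1]⟩
    · rw [gstep_pd_ne q y hPq] at hfree
      have h1 := hg.nrm hg0 P hfree hbad
      unfold nrmL at h1 ⊢
      rw [gstep_pd_ne q y hPq, hb1, gstep_gs_ne q y hPq]
      exact h1

theorem OK.inv_step (h : p.OK x) (hg : p.Inv g) : p.Inv (p.gstep g q y) := by
  refine ⟨fun P => ?_, ?_, ?_, ?_, h.step_chk q y hg, h.step_ver q y hg, h.step_fre q y hg,
    h.step_hit1 q y hg, h.step_hit0 q y, h.step_nrm q y hg⟩
  · by_cases hP : P = q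
    · subst hP
      rw [gstep_pd_self]
      exact h.okL_nx g.pd P y (hg.ok P)
    · rw [gstep_pd_ne q y hP]; exact hg.ok P
  · unfold gstep
    simp only
    split_ifs with h1
    · exact h1
    · exact hg.low1
  · unfold gstep
    simp only
    intro hc
    rw [if_pos hc]
  · intro j
    unfold gstep
    simp only
    split_ifs with h1
    · exact le_rfl
    · exact (hg.low3 j).trans (bv_le_update g.pd q y j)

end Step

theorem OK.inv (h : p.OK x) (l : List (Fin n × Bool)) : p.Inv (p.gh l) := by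
  induction l using List.reverseRecOn with
  | nil => exact h.inv_init
  | append_singleton l e ih =>
    rw [gh_snoc]
    exact h.inv_step e.1 e.2 ih

end Par

end RC.SOne
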