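import Mathlib
import Pool.Agent.H88.RC.Sub
import Pool.Agent.H88.RC.Poly

/-!
# Stage 1 of the coin: parameters and consequences of the reading pattern
-/

namespace RC.SOne

open Finset

/-- The data of stage 1. -/
structure Par (n : ℕ) where
  /-- number of blocks -/
  B : ℕ
  /-- number of registers read in a check -/
  d : ℕ
  /-- parameter of the reading pattern -/
  b0 : ℕ
  /-- growth rate of the weights -/
  η : ℝ
  /-- accuracy of the reading pattern -/
  ε : ℝ
  /-- bound for (weight of a vote) / (contribution) -/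
  ε0 : ℝ
  /-- number of votes in block `b` -/
  N : ℕ → ℕ
  /-- the reading pattern -/
  Γ : Fin n → Fin d → Fin n

variable {n : ℕ} (p : Par n)

namespace Par

noncomputable def u (b : ℕ) : ℝ := (1 + p.η) ^ b / n
/-- contribution of `b` completed blocks to the clock -/
noncomputable def V (b : ℕ) : ℝ := p.u b - p.u 0
/-- weight of a vote in block `b` -/
noncomputable def ω (b : ℕ) : ℝ := Real.sqrt (p.η * p.u b / p.N b)
/-- upper bound for the clock when it first exceeds `1 + 4 ε` -/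
noncomputable def Ψm : ℝ := 1 + 4 * p.ε + p.η * p.u p.B
/-- upper bound for the total variance -/
noncomputable def Φm : ℝ := p.Ψm + p.η * (p.Ψm + 1) + 2 * (p.B * p.b0) * p.V p.B

/-- The inequalities needed. -/
structure OK (x : ℝ) : Prop where
  n_pos : 0 < n
  d_pos : 0 < p.d
  B_pos : 0 < p.B
  η_pos : 0 < p.η
  ε_pos : 0 < p.ε
  ε_le : p.ε ≤ 1 / 40
  ε0_pos : 0 < p.ε0
  ε0_le : p.ε0 ≤ 1 / 32
  N_pos : ∀ b < p.B, 0 < p.N b
  N_ge : ∀ b < p.B, p.η ≤ p.ε0 ^ 2 * p.u b * p.N b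
  pattern : ∀ A B : Finset (Fin n),
    (∀ q ∈ B, p.ε * (p.d : ℝ) * (A.card + p.b0) <
      |(n : ℝ) * (univ.filter fun i : Fin p.d => p.Γ q i ∈ A).card - (p.d : ℝ) * A.card|) →
    B.card < p.b0
  b0V : (p.b0 : ℝ) * p.V p.B ≤ 1
  Φm_le : p.Φm ≤ 11 / 10
  x_pos : 0 < x
  x_ge : p.Φm - (1 - 4 * p.ε) ≤ x
  x_small : (n : ℝ) * Real.exp (-((1 / 32) ^ 2 / (2 * x))) ≤ 1 / 640

variable {p} {x : ℝ}

theorem OK.nR (h : p.OK x) : (0 : ℝ) < n := by exact_mod_cast h.n_pos

theorem OK.dR (h : p.OK x) : (0 : ℝ) < p.d := by exact_mod_cast h.d_pos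

theorem OK.u_pos (h : p.OK x) (b : ℕ) : 0 < p.u b := by
  have := h.nR
  have := h.η_pos
  unfold u; positivity

theorem OK.u_succ (_h : p.OK x) (b : ℕ) : p.u (b + 1) = p.u b + p.η * p.u b := by
  unfold u; rw [pow_succ]; ring

theorem OK.V_succ (h : p.OK x) (b : ℕ) : p.V (b + 1) = p.V b + p.η * p.u b := by
  unfold V; rw [h.u_succ]; ring

theorem V_zero : p.V 0 = 0 := by unfold V; ring

theorem OK.u_eq (_h : p.OK x) (b : ℕ) : p.u b = p.V b + 1 / n := by
  unfold V u; simp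

theorem OK.V_mono (h : p.OK x) : Monotone p.V := by
  refine monotone_nat_of_le_succ fun b => ?_
  rw [h.V_succ]
  have := mul_pos h.η_pos (h.u_pos b)
  linarith

theorem OK.u_mono (h : p.OK x) : Monotone p.u := by
  intro a b hab
  rw [h.u_eq, h.u_eq]
  have := h.V_mono hab
  linarith

theorem OK.V_nonneg (h : p.OK x) (b : ℕ) : 0 ≤ p.V b := by
  rw [← V_zero (p := p)]; exact h.V_mono (Nat.zero_le b)

theorem OK.V_pos (h : p.OK x) {b : ℕ} (hb : 0 < b) : 0 < p.V b := by
  obtain ⟨c, rfl⟩ : ∃ c, b = c + 1 := ⟨b - 1, by omega⟩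
  rw [h.V_succ]
  have := mul_pos h.η_pos (h.u_pos c)
  have := h.V_nonneg c
  linarith

theorem OK.NR (h : p.OK x) {b : ℕ} (hb : b < p.B) : (0 : ℝ) < p.N b := by
  exact_mod_cast h.N_pos b hb

theorem OK.ω_sq (h : p.OK x) (b : ℕ) : p.ω b ^ 2 = p.η * p.u b / p.N b := by
  have := h.η_pos
  have := h.u_pos b
  unfold ω
  rw [Real.sq_sqrt (by positivity)]

theorem ω_nonneg (b : ℕ) : 0 ≤ p.ω b := Real.sqrt_nonneg _

theorem OK.N_ω (h : p.OK x) {b : ℕ} (hb : b < p.B) : (p.N b : ℝ) * p.ω b ^ 2 = p.η * p.u b := by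
  rw [h.ω_sq]
  field_simp [(h.NR hb).ne']

theorem OK.ω_le (h : p.OK x) {b : ℕ} (hb : b < p.B) : p.ω b ≤ p.ε0 * p.u b := by
  unfold ω
  have h1 := h.u_pos b
  have h2 := h.ε0_pos
  rw [Real.sqrt_le_left (by positivity), div_le_iff₀ (h.NR hb)]
  have := h.N_ge b hb
  have := mul_le_mul_of_nonneg_right this h1.le
  nlinarith

/-! ### the clock of a vector of numbers of blocks -/

variable (p) in
/-- the clock -/
noncomputable def Ψ (β : Fin n → ℕ) : ℝ := ∑ j, p.V (β j)

theorem OK.Ψ_mono (h : p.OK x) {β β' : Fin n → ℕ} (hb : ∀ j, β j ≤ β' j) : p.Ψ β ≤ p.Ψ β' :=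
  Finset.sum_le_sum fun j _ => h.V_mono (hb j)

theorem OK.Ψ_nonneg (h : p.OK x) (β : Fin n → ℕ) : 0 ≤ p.Ψ β :=
  Finset.sum_nonneg fun j _ => h.V_nonneg _

theorem OK.sum_u (h : p.OK x) (β : Fin n → ℕ) : ∑ j, p.u (β j) = p.Ψ β + 1 := by
  have hn := h.nR
  have : ∀ j, p.u (β j) = p.V (β j) + 1 / n := fun j => h.u_eq _
  rw [Finset.sum_congr rfl fun j _ => this j, Finset.sum_add_distrib, Ψ]
  congr 1
  rw [Finset.sum_const, Finset.card_univ, Fintype.card_fin, nsmul_eq_mul]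
  field_simp

/-- pattern reading index -/
def Γ' (p : Par n) (q : Fin n) (k : ℕ) : Fin n := if h : k < p.d then p.Γ q ⟨k, h⟩ else q

theorem sum_Γ' (q : Fin n) (f : Fin n → ℝ) :
    ∑ i ∈ range p.d, f (p.Γ' q i) = ∑ i : Fin p.d, f (p.Γ q i) := by
  rw [Finset.sum_range]
  refine Finset.sum_congr rfl fun i _ => ?_
  simp [Γ']

open Classical in
/-- the processes that misjudge the set `A` -/
noncomputable def badA (p : Par n) (A : Finset (Fin n)) : Finset (Fin n) :=
  univ.filter fun q => p.ε * (p.d : ℝ) * (A.card + p.b0) <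
      |(n : ℝ) * (univ.filter fun i : Fin p.d => p.Γ q i ∈ A).card - (p.d : ℝ) * A.card|

theorem OK.card_badA (h : p.OK x) (A : Finset (Fin n)) : (p.badA A).card ≤ p.b0 :=
  (h.pattern A (p.badA A) fun q hq => by simpa [badA] using hq).le

open Classical in
/-- the processes that misjudge the vector `β` -/
noncomputable def bad (p : Par n) (β : Fin n → ℕ) : Finset (Fin n) :=
  (range p.B).biUnion fun b => p.badA (univ.filter fun j => b < β j)

theorem OK.card_bad (h : p.OK x) (β : Fin n → ℕ) : ((p.bad β).card : ℝ) ≤ p.B * p.b0 := by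
  have h1 : (p.bad β).card ≤ p.B * p.b0 := by
    unfold bad
    refine Finset.card_biUnion_le.trans ?_
    calc ∑ b ∈ range p.B, (p.badA (univ.filter fun j => b < β j)).card
        ≤ ∑ b ∈ range p.B, p.b0 := Finset.sum_le_sum fun b _ => h.card_badA _
      _ = p.B * p.b0 := by simp
  exact_mod_cast h1

theorem V_eq_sum {m : ℕ} (hm : m ≤ p.B) :
    p.V m = ∑ b ∈ range p.B, (p.V (b + 1) - p.V b) * (if b < m then 1 else 0) := by
  have h1 : ∑ b ∈ range p.B, (p.V (b + 1) - p.V b) * (if b < m then (1 : ℝ) else 0)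
      = ∑ b ∈ (range p.B).filter (fun b => b < m), (p.V (b + 1) - p.V b) := by
    rw [Finset.sum_filter]
    refine Finset.sum_congr rfl fun b _ => ?_
    split_ifs <;> simp
  have h2 : (range p.B).filter (fun b => b < m) = range m := by
    ext b; simp only [mem_filter, mem_range]; omega
  rw [h1, h2, Finset.sum_range_sub, V_zero, sub_zero]

theorem OK.est (h : p.OK x) {β : Fin n → ℕ} (hβ : ∀ j, β j ≤ p.B) {q : Fin n} (hq : q ∉ p.bad β) :
    |(n : ℝ) * ∑ i ∈ range p.d, p.V (β (p.Γ' q i)) - p.d * p.Ψ β| ≤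
      p.ε * p.d * (p.Ψ β + 1) := by
  classical
  rw [sum_Γ' q fun j => p.V (β j)]
  set dl : ℕ → ℝ := fun b => p.V (b + 1) - p.V b with hdl
  have hdl0 : ∀ b, 0 ≤ dl b := fun b => sub_nonneg.2 (h.V_mono (Nat.le_succ b))
  have e1 : ∑ i : Fin p.d, p.V (β (p.Γ q i)) =
      ∑ b ∈ range p.B, dl b * ((univ.filter fun i : Fin p.d => p.Γ q i ∈
        (univ.filter fun j => b < β j)).card : ℝ) := by
    rw [Finset.sum_congr rfl fun i _ => V_eq_sum (hβ (p.Γ q i)), Finset.sum_comm]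
    refine Finset.sum_congr rfl fun b _ => ?_
    rw [← Finset.mul_sum]
    congr 1
    rw [Finset.sum_boole]
    simp
  have e2 : p.Ψ β = ∑ b ∈ range p.B, dl b * ((univ.filter fun j => b < β j).card : ℝ) := by
    unfold Ψ
    rw [Finset.sum_congr rfl fun j _ => V_eq_sum (hβ j), Finset.sum_comm]
    refine Finset.sum_congr rfl fun b _ => ?_
    rw [← Finset.mul_sum]
    congr 1
    rw [Finset.sum_boole]
  have e3 : (n : ℝ) * ∑ i : Fin p.d, p.V (β (p.Γ q i)) - p.d * p.Ψ β =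
      ∑ b ∈ range p.B, dl b * ((n : ℝ) * ((univ.filter fun i : Fin p.d => p.Γ q i ∈
        (univ.filter fun j => b < β j)).card : ℝ) - p.d * ((univ.filter fun j => b < β j).card : ℝ)) := by
    rw [e1, e2, Finset.mul_sum, Finset.mul_sum, ← Finset.sum_sub_distrib]
    refine Finset.sum_congr rfl fun b _ => ?_
    ring
  rw [e3]
  have e4 : ∑ b ∈ range p.B, dl b = p.V p.B := by
    rw [hdl, Finset.sum_range_sub, V_zero, sub_zero]
  have e5 : p.ε * p.d * (p.Ψ β + p.b0 * p.V p.B) ≤ p.ε * p.d * (p.Ψ β + 1) := by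
    have := h.b0V
    have := h.ε_pos
    have := h.dR
    apply mul_le_mul_of_nonneg_left _ (by positivity)
    linarith
  refine le_trans ?_ e5
  have e6 : p.ε * p.d * (p.Ψ β + p.b0 * p.V p.B) =
      ∑ b ∈ range p.B, dl b * (p.ε * p.d * (((univ.filter fun j => b < β j).card : ℝ) + p.b0)) := by
    rw [e2, ← e4, Finset.mul_sum, ← Finset.sum_add_distrib, Finset.mul_sum]
    refine Finset.sum_congr rfl fun b _ => ?_
    ring
  rw [e6]
  refine (Finset.abs_sum_le_sum_abs _ _).trans (Finset.sum_le_sum fun b hb => ?_)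
  rw [abs_mul, abs_of_nonneg (hdl0 b)]
  apply mul_le_mul_of_nonneg_left _ (hdl0 b)
  have hq' : q ∉ p.badA (univ.filter fun j => b < β j) := by
    intro hc
    apply hq
    unfold bad
    rw [Finset.mem_biUnion]
    exact ⟨b, hb, hc⟩
  unfold badA at hq'
  simp only [mem_filter, mem_univ, true_and, not_lt] at hq'
  simpa using hq'

end Par

end RC.SOne
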