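import Pool.Agent.H25.RC.Par

/-!
# Stage 1 of the coin: the protocol, its rank function
-/

namespace RC.SOne

open Finset

variable {n : ℕ}

/-- phases of a process -/
inductive Ph
  | vote
  | pub (x : Bool)
  | check
  | verify
  | final
  | done (o : Option Bool)
  deriving DecidableEq

/-- local states: phase, number of completed blocks, counter, sum of the published votes,
accumulator, free flag -/
structure LS where
  ph : Ph
  b : ℕ
  k : ℕ
  sum : ℝ
  acc : ℝ
  free : Bool

/-- sign of a vote -/
def sg (x : Bool) : ℝ := if x then 1 else -1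

theorem abs_sg (x : Bool) : |sg x| = 1 := by cases x <;> simp [sg]

theorem sg_sq (x : Bool) : sg x ^ 2 = 1 := by cases x <;> simp [sg]

namespace Par

variable (p : Par n)

/-- next block, or pass -/
def nextB (s : LS) : LS :=
  if s.b < p.B then { s with ph := .vote, k := 0 } else { s with ph := .done none, k := 0 }

noncomputable def afterPub (s : LS) (x : Bool) : LS :=
  if s.k + 1 < p.N s.b then { s with ph := .vote, k := s.k + 1, sum := s.sum + sg x * p.ω s.b }
  else if s.free then p.nextB { s with b := s.b + 1, k := 0, sum := s.sum + sg x * p.ω s.b }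
  else { s with ph := .check, b := s.b + 1, k := 0, sum := s.sum + sg x * p.ω s.b, acc := 0 }

open Classical in
noncomputable def afterCheck (s : LS) (m : ℕ) : LS :=
  if s.k + 1 < p.d then { s with k := s.k + 1, acc := s.acc + p.V m }
  else if (n : ℝ) * (s.acc + p.V m) < p.d then p.nextB s
  else { s with ph := .verify, k := 0, acc := 0 }

open Classical in
noncomputable def afterVerify (s : LS) (m : ℕ) : LS :=
  if s.k + 1 < n then { s with k := s.k + 1, acc := s.acc + p.V m }
  else if 1 - 4 * p.ε ≤ s.acc + p.V m then { s with ph := .final, k := 0, acc := 0 }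
  else p.nextB { s with free := true }

open Classical in
noncomputable def afterFinal (_p : Par n) (s : LS) (r : ℝ) : LS :=
  if s.k + 1 < n then { s with k := s.k + 1, acc := s.acc + r }
  else { s with ph := .done (some (decide (0 < s.acc + r))), acc := s.acc + r }

/-- register number `k` -/
def idx (_p : Par n) (q : Fin n) (k : ℕ) : Fin n := if h : k < n then ⟨k, h⟩ else q

/-- The protocol of stage 1. -/
noncomputable def proto : Sub n (Option Bool) where
  V := ℕ × ℝ
  v0 := (0, 0)
  S := LS
  s0 := ⟨.vote, 0, 0, 0, 0, false⟩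
  act := fun q s => match s.ph with
    | .vote => .flip fun x => { s with ph := .pub x }
    | .pub x => .write ((p.afterPub s x).b, (p.afterPub s x).sum) (p.afterPub s x)
    | .check => .read (p.Γ' q s.k) fun v => p.afterCheck s v.1
    | .verify => .read (p.idx q s.k) fun v => p.afterVerify s v.1
    | .final => .read (p.idx q s.k) fun v => p.afterFinal s v.2
    | .done o => .out o

/-! ### local invariant -/

/-- invariant of local states -/
def okL (s : LS) : Prop :=
  s.b ≤ p.B ∧ match s.ph with
    | .vote => s.b < p.B ∧ s.k < p.N s.b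
    | .pub _ => s.b < p.B ∧ s.k < p.N s.b
    | .check => s.k < p.d ∧ s.free = false
    | .verify => s.k < n ∧ s.free = false
    | .final => s.k < n ∧ s.free = false
    | .done _ => True

variable {p} {x : ℝ}

theorem OK.okL_nextB (h : p.OK x) {s : LS} (hs : s.b ≤ p.B) : p.okL (p.nextB s) := by
  unfold nextB
  split_ifs with h1
  · exact ⟨hs, h1, h.N_pos _ h1⟩
  · exact ⟨hs, trivial⟩

theorem OK.okL_afterPub (h : p.OK x) {s : LS} (hs : s.b < p.B) (y : Bool) :
    p.okL (p.afterPub s y) := by
  unfold afterPub
  split_ifs with h1 h2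
  · exact ⟨hs.le, hs, h1⟩
  · exact h.okL_nextB hs
  · refine ⟨hs, h.d_pos, ?_⟩
    simpa using h2

theorem OK.okL_afterCheck (h : p.OK x) {s : LS} (hs : p.okL s) (hph : s.ph = .check) (m : ℕ) :
    p.okL (p.afterCheck s m) := by
  unfold okL at hs
  rw [hph] at hs
  obtain ⟨h1, h2, h3⟩ := hs
  unfold afterCheck
  split_ifs with h4 h5
  · unfold okL; simp only [hph]
    exact ⟨h1, h4, h3⟩
  · exact h.okL_nextB h1
  · exact ⟨h1, h.n_pos, h3⟩

theorem OK.okL_afterVerify (h : p.OK x) {s : LS} (hs : p.okL s) (hph : s.ph = .verify) (m : ℕ) :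
    p.okL (p.afterVerify s m) := by
  unfold okL at hs
  rw [hph] at hs
  obtain ⟨h1, h2, h3⟩ := hs
  unfold afterVerify
  split_ifs with h4 h5
  · unfold okL; simp only [hph]
    exact ⟨h1, h4, h3⟩
  · exact ⟨h1, h.n_pos, h3⟩
  · exact h.okL_nextB h1

theorem OK.okL_afterFinal (_h : p.OK x) {s : LS} (hs : p.okL s) (hph : s.ph = .final) (r : ℝ) :
    p.okL (p.afterFinal s r) := by
  unfold okL at hs
  rw [hph] at hs
  obtain ⟨h1, h2, h3⟩ := hs
  unfold afterFinal
  split_ifs with h4
  · unfold okL; simp only [hph]
    exact ⟨h1, h4, h3⟩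
  · exact ⟨h1, trivial⟩

/-! ### the rank function -/

variable (p) in
/-- number of voting and checking steps in the blocks from `b` on -/
def W (b : ℕ) : ℕ := ∑ c ∈ Finset.Ico b p.B, (2 * p.N c + p.d)

theorem W_succ {b : ℕ} (hb : b < p.B) : p.W b = 2 * p.N b + p.d + p.W (b + 1) := by
  unfold W
  rw [Finset.sum_eq_sum_Ico_succ_bot hb]

variable (p) in
/-- steps reserved for verification and final collect -/
def ex (s : LS) : ℕ := if s.free then 0 else 2 * n

variable (p) in
def rank (s : LS) : ℕ := match s.ph with
  | .vote => p.W s.b - 2 * s.k + ex (n := n) s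
  | .pub _ => p.W s.b - 2 * s.k - 1 + ex (n := n) s
  | .check => (p.d - s.k) + p.W s.b + 2 * n
  | .verify => (n - s.k) + n + p.W s.b
  | .final => n - s.k
  | .done _ => 0

theorem rank_nextB_le (s : LS) : p.rank (p.nextB s) ≤ p.W s.b + ex (n := n) s := by
  unfold nextB
  split_ifs with h1
  · simp [rank, ex]
  · simp [rank]

theorem OK.rank_afterPub (_h : p.OK x) {s : LS} (hs : p.okL s) (y : Bool) (hph : s.ph = .pub y) :
    p.rank (p.afterPub s y) < p.rank s := by
  unfold okL at hs
  rw [hph] at hs
  obtain ⟨h1, h2, h3⟩ := hs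
  have hW := W_succ h2
  have hr : p.rank s = p.W s.b - 2 * s.k - 1 + ex (n := n) s := by simp [rank, hph]
  rw [hr]
  unfold afterPub
  split_ifs with h4 h5
  · simp only [rank, ex]
    split_ifs <;> omega
  · have := rank_nextB_le (p := p) { s with b := s.b + 1, k := 0, sum := s.sum + sg y * p.ω s.b }
    simp only [ex, h5] at this ⊢
    simp only [if_true] at this ⊢
    omega
  · simp only [rank, ex, if_neg h5]
    omega

theorem OK.rank_afterCheck (_h : p.OK x) {s : LS} (hs : p.okL s) (hph : s.ph = .check) (m : ℕ) :
    p.rank (p.afterCheck s m) < p.rank s := by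
  unfold okL at hs
  rw [hph] at hs
  obtain ⟨h1, h2, h3⟩ := hs
  have hr : p.rank s = (p.d - s.k) + p.W s.b + 2 * n := by simp [rank, hph]
  rw [hr]
  unfold afterCheck
  split_ifs with h4 h5
  · simp only [rank, hph]
    omega
  · have := rank_nextB_le (p := p) s
    simp only [ex, h3] at this
    simp at this
    omega
  · simp only [rank]
    omega

theorem OK.rank_afterVerify (h : p.OK x) {s : LS} (hs : p.okL s) (hph : s.ph = .verify) (m : ℕ) :
    p.rank (p.afterVerify s m) < p.rank s := by
  unfold okL at hs
  rw [hph] at hs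
  obtain ⟨h1, h2, h3⟩ := hs
  have hn := h.n_pos
  have hr : p.rank s = (n - s.k) + n + p.W s.b := by simp [rank, hph]
  rw [hr]
  unfold afterVerify
  split_ifs with h4 h5
  · simp only [rank, hph]
    omega
  · simp only [rank]
    omega
  · have := rank_nextB_le (p := p) { s with free := true }
    simp only [ex, if_true] at this
    omega

theorem OK.rank_afterFinal (h : p.OK x) {s : LS} (hs : p.okL s) (hph : s.ph = .final) (r : ℝ) :
    p.rank (p.afterFinal s r) < p.rank s := by
  unfold okL at hs
  rw [hph] at hs
  obtain ⟨h1, h2, h3⟩ := hs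
  have hr : p.rank s = n - s.k := by simp [rank, hph]
  rw [hr]
  unfold afterFinal
  split_ifs with h4
  · simp only [rank, hph]
    omega
  · simp only [rank]
    omega

theorem OK.ranked (h : p.OK x) {T : ℕ}
    (hT : 2 * (∑ b ∈ range p.B, p.N b) + p.B * p.d + 2 * n ≤ T) : p.proto.Ranked T := by
  refine ⟨fun _ s => p.okL s, fun _ s => p.rank s, fun _ => ⟨Nat.zero_le _, h.B_pos,
    h.N_pos _ h.B_pos⟩, fun _ => ?_, ?_, ?_, ?_⟩
  · refine le_trans (le_of_eq ?_) hT
    show p.rank ⟨.vote, 0, 0, 0, 0, false⟩ = _
    simp only [rank, ex, W]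
    rw [← Finset.range_eq_Ico, Finset.sum_add_distrib, ← Finset.mul_sum]
    simp
  · intro i s j next v hs hact
    cases hph : s.ph with
    | check =>
      simp only [proto, hph] at hact
      injection hact with h1 h2
      subst h2
      exact ⟨h.okL_afterCheck hs hph _, h.rank_afterCheck hs hph _⟩
    | verify =>
      simp only [proto, hph] at hact
      injection hact with h1 h2
      subst h2
      exact ⟨h.okL_afterVerify hs hph _, h.rank_afterVerify hs hph _⟩
    | final =>
      simp only [proto, hph] at hact
      injection hact with h1 h2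
      subst h2
      exact ⟨h.okL_afterFinal hs hph _, h.rank_afterFinal hs hph _⟩
    | _ => simp [proto, hph] at hact
  · intro i s v next hs hact
    cases hph : s.ph with
    | pub y =>
      simp only [proto, hph] at hact
      injection hact with h1 h2
      subst h2
      have hs' := hs
      unfold okL at hs'
      rw [hph] at hs'
      exact ⟨h.okL_afterPub hs'.2.1 y, h.rank_afterPub hs y hph⟩
    | _ => simp [proto, hph] at hact
  · intro i s next b hs hact
    cases hph : s.ph with
    | vote =>
      simp only [proto, hph] at hact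
      injection hact with h1
      subst h1
      have hs' := hs
      unfold okL at hs'
      rw [hph] at hs'
      refine ⟨⟨hs'.1, hs'.2.1, hs'.2.2⟩, ?_⟩
      have hW := W_succ hs'.2.1
      have h3 := hs'.2.2
      simp only [rank, hph, ex]
      omega
    | _ => simp [proto, hph] at hact

end Par

end RC.SOne
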