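import Pool.Agent.H25.RC.Inv

/-!
# Stage 1 of the coin: variance bounds and the invariants of the final collects
-/

namespace RC.SOne

open Finset

variable {n : ℕ}

namespace Par

variable (p : Par n)

/-- total variance of all votes cast -/
noncomputable def Φ (g : Fin n → LS) : ℝ := ∑ q, p.vr (g q)

variable {p} {x : ℝ}

theorem OK.V_le_vr (_h : p.OK x) (s : LS) : p.V s.b ≤ p.vr s := by
  unfold vr
  have hw := sq_nonneg (p.ω s.b)
  cases hph : s.ph <;> simp only [le_add_iff_nonneg_right, le_refl]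
  · positivity
  · positivity

theorem OK.vr_nonneg (h : p.OK x) (s : LS) : 0 ≤ p.vr s := (h.V_nonneg _).trans (h.V_le_vr s)

theorem OK.vr_le_succ (h : p.OK x) {s : LS} (hs : p.okL s) : p.vr s ≤ p.V (s.b + 1) := by
  unfold okL at hs
  have hw := sq_nonneg (p.ω s.b)
  have hm : p.V s.b ≤ p.V (s.b + 1) := h.V_mono (Nat.le_succ _)
  unfold vr
  cases hph : s.ph with
  | vote =>
    rw [hph] at hs
    have h1 := h.N_ω hs.2.1
    have h2 : (s.k : ℝ) ≤ p.N s.b := by exact_mod_cast hs.2.2.le
    rw [h.V_succ, ← h1]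
    have := mul_le_mul_of_nonneg_right h2 hw
    linarith
  | pub z =>
    rw [hph] at hs
    have h1 := h.N_ω hs.2.1
    have h2 : (s.k : ℝ) + 1 ≤ p.N s.b := by exact_mod_cast hs.2.2
    rw [h.V_succ, ← h1]
    have := mul_le_mul_of_nonneg_right h2 hw
    linarith
  | check => simpa using hm
  | verify => simpa using hm
  | final => simpa using hm
  | done o => simpa using hm

theorem vr_eq_V {s : LS} (h1 : ∀ y, s.ph ≠ .pub y) (h2 : s.ph ≠ .vote) : p.vr s = p.V s.b := by
  unfold vr
  cases hph : s.ph with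
  | vote => exact absurd hph h2
  | pub z => exact absurd hph (h1 z)
  | _ => simp

theorem OK.vr_le_B (h : p.OK x) {s : LS} (hs : p.okL s) : p.vr s ≤ p.V p.B := by
  by_cases h1 : s.b < p.B
  · exact (h.vr_le_succ hs).trans (h.V_mono h1)
  · have h2 : p.vr s = p.V s.b := by
      apply vr_eq_V
      · intro y hy
        unfold okL at hs
        rw [hy] at hs
        exact h1 hs.2.1
      · intro hy
        unfold okL at hs
        rw [hy] at hs
        exact h1 hs.2.1
    rw [h2]
    exact h.V_mono hs.1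

theorem OK.sum_V_succ (h : p.OK x) (β : Fin n → ℕ) :
    ∑ q, p.V (β q + 1) = p.Ψ β + p.η * (p.Ψ β + 1) := by
  have h1 : ∀ q, p.V (β q + 1) = p.V (β q) + p.η * p.u (β q) := fun q => h.V_succ _
  rw [Finset.sum_congr rfl fun q _ => h1 q, Finset.sum_add_distrib, ← Finset.mul_sum, h.sum_u, Ψ]

theorem OK.free_bad (h : p.OK x) {g : Gh n} (hg : p.Inv g) {q : Fin n}
    (hq : (g.pd q).free = true) : q ∈ p.bad g.blow := by
  by_contra hc
  have hβ : ∀ j, g.blow j ≤ p.B := fun j => (hg.low3 j).trans (hg.ok j).1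
  have h1 := h.est hβ hc
  have h2 := (abs_le.mp h1).2
  have h3 := hg.fre q hq
  have h4 := hg.low1
  have hd := h.dR
  have hε := h.ε_pos
  have hε' := h.ε_le
  have h5 : p.d * p.Ψ g.blow + p.ε * p.d * (p.Ψ g.blow + 1) < p.d := by
    have : p.Ψ g.blow + p.ε * (p.Ψ g.blow + 1) < 1 := by nlinarith
    nlinarith
  linarith

theorem OK.Φ_le (h : p.OK x) {g : Gh n} (hg : p.Inv g) : p.Φ g.pd ≤ p.Φm := by
  classical
  have hη := h.η_pos
  have hε := h.ε_pos
  have huB := h.u_pos p.B
  have hVB := h.V_nonneg p.B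
  have hBb : (0 : ℝ) ≤ p.B * p.b0 := by positivity
  have hΨm : 1 + 4 * p.ε ≤ p.Ψm := by unfold Ψm; have := mul_pos hη huB; linarith
  cases hhit : g.hit with
  | false =>
    have h1 := (hg.hit0 hhit).1
    have h2 : p.Φ g.pd ≤ p.Ψ (bv g.pd) + p.η * (p.Ψ (bv g.pd) + 1) := by
      rw [← h.sum_V_succ]
      exact Finset.sum_le_sum fun q _ => h.vr_le_succ (hg.ok q)
    refine h2.trans ?_
    unfold Φm
    have h3 : p.Ψ (bv g.pd) ≤ p.Ψm := by linarith
    have h4 : 0 ≤ 2 * (p.B * p.b0) * p.V p.B := by positivity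
    nlinarith
  | true =>
    obtain ⟨h1, h2, h3⟩ := hg.hit1 hhit
    set bd : Finset (Fin n) := p.bad g.blow ∪ p.bad g.b1 with hbd
    have hcard : (bd.card : ℝ) ≤ 2 * (p.B * p.b0) := by
      have h4 : bd.card ≤ (p.bad g.blow).card + (p.bad g.b1).card := Finset.card_union_le _ _
      have h5 : (bd.card : ℝ) ≤ (p.bad g.blow).card + (p.bad g.b1).card := by exact_mod_cast h4
      have h6 := h.card_bad g.blow
      have h7 := h.card_bad g.b1
      linarith
    have h8 : ∀ q, p.vr (g.pd q) ≤ p.V (g.b1 q + 1) + (if q ∈ bd then p.V p.B else 0) := by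
      intro q
      by_cases hq : q ∈ bd
      · rw [if_pos hq]
        have := h.vr_le_B (hg.ok q)
        have := h.V_nonneg (g.b1 q + 1)
        linarith
      · rw [if_neg hq, add_zero]
        have hq1 : q ∉ p.bad g.b1 := fun hc => hq (Finset.mem_union_right _ hc)
        have hq2 : (g.pd q).free = false := by
          by_contra hc
          apply hq
          apply Finset.mem_union_left
          exact h.free_bad hg (by simpa using hc)
        rcases hg.nrm hhit q hq2 hq1 with h9 | h9
        · exact (h.vr_le_succ (hg.ok q)).trans (h.V_mono (by omega))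
        · rw [vr_eq_V h9.2.1 h9.2.2.1, h9.1]
    have h10 : p.Φ g.pd ≤ (p.Ψ g.b1 + p.η * (p.Ψ g.b1 + 1)) + bd.card * p.V p.B := by
      refine (Finset.sum_le_sum fun q _ => h8 q).trans ?_
      rw [Finset.sum_add_distrib, h.sum_V_succ, Finset.sum_ite_mem, Finset.univ_inter,
        Finset.sum_const, nsmul_eq_mul]
    refine h10.trans ?_
    unfold Φm
    have h11 : (bd.card : ℝ) * p.V p.B ≤ 2 * (p.B * p.b0) * p.V p.B :=
      mul_le_mul_of_nonneg_right hcard hVB
    nlinarith

theorem OK.Ψ_le_Φ (h : p.OK x) (g : Fin n → LS) : p.Ψ (bv g) ≤ p.Φ g :=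
  Finset.sum_le_sum fun q _ => h.V_le_vr (g q)

theorem OK.Φ_step (h : p.OK x) {g : Gh n} (hg : p.Inv g) (q : Fin n) (y : Bool) :
    p.Φ (p.gstep g q y).pd = p.Φ g.pd + p.wv (g.pd q) := by
  unfold Φ
  refine sum_update_add _ _ q _ ?_ ?_
  · rw [gstep_pd_self]; exact h.vr_nx g.pd q y (hg.ok q)
  · intro j hj
    rw [gstep_pd_ne q y hj]

/-- the processes that pass -/
theorem OK.pass (h : p.OK x) {K : ℕ} (hK : 11 / 10 ≤ K * p.V p.B)
    (l : List (Fin n × Bool)) (A : Finset (Fin n)) (hA : ∀ i ∈ A, p.proto.Outs l i none)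
    (hb : ∀ i, ((p.gh l).pd i).ph = .done none → ((p.gh l).pd i).b = p.B) : A.card ≤ K := by
  have hg := h.inv l
  have h1 : (A.card : ℝ) * p.V p.B ≤ p.Ψ (bv (p.gh l).pd) := by
    calc (A.card : ℝ) * p.V p.B = ∑ i ∈ A, p.V p.B := by simp
      _ = ∑ i ∈ A, p.V ((p.gh l).pd i).b := by
        refine Finset.sum_congr rfl fun i hi => ?_
        rw [hb i ((p.outs_iff l i none).1 (hA i hi))]
      _ ≤ ∑ i, p.V ((p.gh l).pd i).b :=
        Finset.sum_le_sum_of_subset_of_nonneg (Finset.subset_univ _) fun i _ _ => h.V_nonneg _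
      _ = p.Ψ (bv (p.gh l).pd) := rfl
  have h2 := h.Ψ_le_Φ (p.gh l).pd
  have h3 := h.Φ_le hg
  have h4 := h.Φm_le
  have h5 := h.V_pos h.B_pos
  have h6 : (A.card : ℝ) * p.V p.B ≤ K * p.V p.B := by linarith
  exact_mod_cast le_of_mul_le_mul_right h6 h5

theorem OK.done_none (h : p.OK x) (l : List (Fin n × Bool)) (i : Fin n)
    (hi : ((p.gh l).pd i).ph = .done none) : ((p.gh l).pd i).b = p.B := by
  induction l using List.reverseRecOn with
  | nil => simp [ginit] at hi
  | append_singleton l e ih =>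
    rw [gh_snoc] at hi ⊢
    have hg := h.inv l
    by_cases hq : i = e.1
    · subst hq
      rw [gstep_pd_self] at hi ⊢
      have htr := p.tr (p.gh l).pd e.1 e.2 (hg.ok e.1)
      have hok := hg.ok e.1
      unfold okL at hok
      generalize hs : p.nx (p.gh l).pd e.1 e.2 = s' at hi htr ⊢
      cases htr with
      | vote h1 => simp at hi
      | pub1 z h1 h2 => simp at hi
      | pub2 z h1 h2 h3 h4 => simp at hi
      | pub3 z h1 h2 h3 h4 => rw [h1] at hok; have := hok.2.1; simp only; omega
      | pub4 z h1 h2 h3 => simp at hi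
      | chk1 h1 h2 => simp [h1] at hi
      | chk2 h1 h2 h3 h4 => simp at hi
      | chk3 h1 h2 h3 h4 => have := hok.1; simp only; omega
      | chk4 h1 h2 h3 => simp at hi
      | ver1 h1 h2 h3 => simp [h1] at hi
      | ver2 h1 h2 h3 h4 => simp at hi
      | ver3 h1 h2 h3 h4 h5 => simp at hi
      | ver4 h1 h2 h3 h4 h5 => have := hok.1; simp only; omega
      | fin1 h1 h2 h3 => simp [h1] at hi
      | fin2 h1 h2 h3 => simp at hi
      | done o h1 => exact ih hi
    · rw [gstep_pd_ne e.1 e.2 hq] at hi ⊢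
      exact ih hi

/-! ### the final collects -/

variable (p) in
/-- invariants of the votes after `tau` and of the final collects -/
structure Inv2 (g : Gh n) : Prop where
  tf : ∀ P, ((g.pd P).ph = .final ∨ ∃ b, (g.pd P).ph = .done (some b)) → g.tau = true
  t0 : g.tau = false → ∀ P, g.D P = 0 ∧ g.Q P = 0
  t0s : g.tau = false → g.s = p.Φ g.pd
  t1 : g.tau = true → 1 - 4 * p.ε ≤ g.s
  s0 : 0 ≤ g.s
  Q0 : ∀ P, 0 ≤ g.Q P
  sQ : ∀ P, g.s + g.Q P ≤ p.Φ g.pd
  star : ∀ P, |ea (g.pd P) + Tl (rp (n := n) (g.pd P)) (fun j => p.A (g.pd j)) - g.z - g.D P| ≤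
    p.ε0 * Hd (rp (n := n) (g.pd P)) (fun j => p.u (g.pd j).b)
  out : ∀ P b, (g.pd P).ph = .done (some b) → b = @decide (0 < (g.pd P).acc) (Classical.propDecidable _)

theorem rp_zero_of {s : LS} (h1 : s.ph ≠ .final) (h2 : ∀ b, s.ph ≠ .done (some b)) :
    rp (n := n) s = 0 ∧ ea s = 0 := by
  unfold rp ea
  cases hph : s.ph with
  | final => exact absurd hph h1
  | done o =>
    cases o with
    | none => simp
    | some b => exact absurd hph (h2 b)
  | _ => simp

theorem Inv2.zero {g : Gh n} (hg : p.Inv2 g) (ht : g.tau = false) (P : Fin n) :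
    rp (n := n) (g.pd P) = 0 ∧ ea (g.pd P) = 0 := by
  apply rp_zero_of
  · intro hc
    have := hg.tf P (Or.inl hc)
    simp [ht] at this
  · intro b hc
    have := hg.tf P (Or.inr ⟨b, hc⟩)
    simp [ht] at this

theorem OK.inv2_init (_h : p.OK x) : p.Inv2 ginit := by
  refine ⟨fun P hP => ?_, fun _ P => ⟨rfl, rfl⟩, fun _ => ?_, fun hc => ?_, le_rfl, fun P => le_rfl,
    fun P => ?_, fun P => ?_, fun P b hb => ?_⟩
  · simp [ginit] at hP
  · simp [ginit, Φ, vr, V_zero]
  · simp [ginit] at hc
  · simp [ginit, Φ, vr, V_zero]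
  · have h1 : ea ((ginit (n := n)).pd P) = 0 := by simp [ginit, ea]
    have h2 : rp (n := n) ((ginit (n := n)).pd P) = 0 := by simp [ginit, rp]
    rw [h1, h2, Tl_zero, Hd_zero]
    simp [ginit, A]
  · simp [ginit] at hb

theorem wv_nonneg (s : LS) : 0 ≤ p.wv s := by
  unfold wv; split_ifs
  · positivity
  · exact le_rfl

theorem OK.inv2_step (h : p.OK x) {g : Gh n} (hg : p.Inv g) (hg2 : p.Inv2 g) (q : Fin n)
    (y : Bool) : p.Inv2 (p.gstep g q y) := by
  have hΦ := h.Φ_step hg q y
  have hwv := wv_nonneg (p := p) (g.pd q)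
  have htau : (p.gstep g q y).tau = (g.tau || decide ((p.nx g.pd q y).ph = .final)) := by
    unfold gstep; simp only
  have hs : (p.gstep g q y).s = if g.tau then g.s else g.s + p.wv (g.pd q) := rfl
  have hz : (p.gstep g q y).z = if g.tau then g.z else g.z + p.wt (g.pd q) y := rfl
  have hD : ∀ P, (p.gstep g q y).D P = if g.tau = true ∧ rp (n := n) (g.pd P) ≤ q.val then
      g.D P + p.wt (g.pd q) y else g.D P := by
    intro P
    unfold gstep; simp only
  have hQ : ∀ P, (p.gstep g q y).Q P = if g.tau = true ∧ rp (n := n) (g.pd P) ≤ q.val then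
      g.Q P + p.wv (g.pd q) else g.Q P := by
    intro P
    unfold gstep; simp only
  have hself := gstep_pd_self (p := p) (g := g) q y
  have htr := p.tr g.pd q y (hg.ok q)
  have hbm := gstep_b_le (p := p) (g := g) q y
  refine ⟨?_, ?_, ?_, ?_, ?_, ?_, ?_, ?_, ?_⟩
  · -- tf
    intro P hP
    rw [htau]
    by_cases hPq : P = q
    · subst hPq
      rw [hself] at hP
      rcases hP with hP | ⟨b, hP⟩
      · simp [hP]
      · have : g.tau = true := by
          generalize hs' : p.nx g.pd P y = s' at hP htr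
          cases htr with
          | vote h1 => simp at hP
          | pub1 z h1 h2 => simp at hP
          | pub2 z h1 h2 h3 h4 => simp at hP
          | pub3 z h1 h2 h3 h4 => simp at hP
          | pub4 z h1 h2 h3 => simp at hP
          | chk1 h1 h2 => simp [h1] at hP
          | chk2 h1 h2 h3 h4 => simp at hP
          | chk3 h1 h2 h3 h4 => simp at hP
          | chk4 h1 h2 h3 => simp at hP
          | ver1 h1 h2 h3 => simp [h1] at hP
          | ver2 h1 h2 h3 h4 => simp at hP
          | ver3 h1 h2 h3 h4 h5 => simp at hP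
          | ver4 h1 h2 h3 h4 h5 => simp at hP
          | fin1 h1 h2 h3 => simp [h1] at hP
          | fin2 h1 h2 h3 => exact hg2.tf P (Or.inl h1)
          | done o h1 => exact hg2.tf P (Or.inr ⟨b, hP⟩)
        simp [this]
    · rw [gstep_pd_ne q y hPq] at hP
      simp [hg2.tf P hP]
  · -- t0
    intro ht P
    rw [htau] at ht
    have ht0 : g.tau = false := by
      cases hc : g.tau with
      | true => simp [hc] at ht
      | false => rfl
    rw [hD, hQ, ht0]
    simpa using hg2.t0 ht0 P
  · -- t0s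
    intro ht
    rw [htau] at ht
    have ht0 : g.tau = false := by
      cases hc : g.tau with
      | true => simp [hc] at ht
      | false => rfl
    rw [hs, hΦ, ht0, hg2.t0s ht0]
    simp
  · -- t1
    intro ht
    cases hc : g.tau with
    | true =>
      rw [hs, hc]
      simpa using hg2.t1 hc
    | false =>
      rw [htau, hc] at ht
      have hfin : (p.nx g.pd q y).ph = .final := by simpa using ht
      rw [hs, hc, hg2.t0s hc]
      simp only [Bool.false_eq_true, if_false]
      have hΨ := h.Ψ_le_Φ g.pd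
      generalize hs' : p.nx g.pd q y = s' at hfin htr
      cases htr with
      | vote h1 => simp at hfin
      | pub1 z h1 h2 => simp at hfin
      | pub2 z h1 h2 h3 h4 => simp at hfin
      | pub3 z h1 h2 h3 h4 => simp at hfin
      | pub4 z h1 h2 h3 => simp at hfin
      | chk1 h1 h2 => simp [h1] at hfin
      | chk2 h1 h2 h3 h4 => simp at hfin
      | chk3 h1 h2 h3 h4 => simp at hfin
      | chk4 h1 h2 h3 => simp at hfin
      | ver1 h1 h2 h3 => simp [h1] at hfin
      | ver2 h1 hk h3 h4 =>
        obtain ⟨v1, v2, v3, v4, v5⟩ := hg.ver q h1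
        have hkn : n ≤ (g.pd q).k + 1 := by omega
        have h5 : (g.pd q).acc + p.V (g.pd ⟨(g.pd q).k, hk⟩).b ≤ p.Ψ (bv g.pd) := by
          unfold Ψ bv
          rw [← Hd_full hkn, Hd_succ hk]
          linarith
        linarith
      | ver3 h1 h2 h3 h4 h5 => simp at hfin
      | ver4 h1 h2 h3 h4 h5 => simp at hfin
      | fin1 h1 h2 h3 =>
        have := hg2.tf q (Or.inl h1)
        simp [hc] at this
      | fin2 h1 h2 h3 => simp at hfin
      | done o h1 => simp [h1] at hfin
  · -- s0
    rw [hs]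
    have := hg2.s0
    split_ifs
    · exact this
    · linarith
  · -- Q0
    intro P
    rw [hQ]
    have := hg2.Q0 P
    split_ifs
    · linarith
    · exact this
  · -- sQ
    intro P
    rw [hs, hQ, hΦ]
    have := hg2.sQ P
    cases hc : g.tau with
    | true =>
      simp only [true_and, if_true]
      split_ifs <;> linarith
    | false =>
      simp
      linarith
  · -- star
    intro P
    have hst := hg2.star P
    have hε0 := h.ε0_pos
    have hA : (fun j => p.A ((p.gstep g q y).pd j)) q = (fun j => p.A (g.pd j)) q + p.wt (g.pd q) y := by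
      simp only [hself]
      exact p.A_nx g.pd q y
    have hA' : ∀ j, j ≠ q → (fun j => p.A ((p.gstep g q y).pd j)) j = (fun j => p.A (g.pd j)) j := by
      intro j hj
      simp only [gstep_pd_ne q y hj]
    -- the inequality with the old position
    have key : |ea (g.pd P) + Tl (rp (n := n) (g.pd P)) (fun j => p.A ((p.gstep g q y).pd j))
        - (p.gstep g q y).z - (p.gstep g q y).D P| ≤
        p.ε0 * Hd (rp (n := n) (g.pd P)) (fun j => p.u ((p.gstep g q y).pd j).b) := by
      have e1 : ea (g.pd P) + Tl (rp (n := n) (g.pd P)) (fun j => p.A ((p.gstep g q y).pd j))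
          - (p.gstep g q y).z - (p.gstep g q y).D P =
          ea (g.pd P) + Tl (rp (n := n) (g.pd P)) (fun j => p.A (g.pd j)) - g.z - g.D P := by
        rw [Tl_update _ _ _ q _ hA hA', hz, hD]
        cases hc : g.tau with
        | true =>
          simp only [true_and, if_true]
          split_ifs <;> ring
        | false =>
          rw [(hg2.zero hc P).1]
          simp
          ring
      rw [e1]
      refine hst.trans ?_
      apply mul_le_mul_of_nonneg_left _ hε0.le
      exact Hd_mono _ fun j => h.u_mono (hbm j)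
    by_cases hPq : P = q
    · subst hPq
      have hpend : ∀ j, |(p.A ((p.gstep g P y).pd j)) - ((p.gstep g P y).pd j).sum| ≤
          p.ε0 * p.u ((p.gstep g P y).pd j).b := by
        intro j
        have hokj : p.okL ((p.gstep g P y).pd j) := (h.inv_step P y hg).ok j
        have hu := mul_nonneg hε0.le (h.u_pos ((p.gstep g P y).pd j).b).le
        unfold A
        unfold okL at hokj
        rw [add_sub_cancel_left]
        cases hph : ((p.gstep g P y).pd j).ph with
        | pub z =>
          rw [hph] at hokj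
          simp only
          rw [abs_mul, abs_sg, one_mul, abs_of_nonneg (ω_nonneg _)]
          exact h.ω_le hokj.2.1
        | _ => simpa using hu
      have hnew : ∀ (hk : (g.pd P).k < n) (_ : (g.pd P).ph = .final)
          (_ : ∀ j, ((p.gstep g P y).pd j).sum = (g.pd j).sum),
          |((g.pd P).acc + (g.pd ⟨(g.pd P).k, hk⟩).sum) +
            Tl ((g.pd P).k + 1) (fun j => p.A ((p.gstep g P y).pd j))
            - (p.gstep g P y).z - (p.gstep g P y).D P| ≤
            p.ε0 * Hd ((g.pd P).k + 1) (fun j => p.u ((p.gstep g P y).pd j).b) := by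
        intro hk h1 hsum
        have hrp : rp (n := n) (g.pd P) = (g.pd P).k := by simp [rp, h1]
        have hea : ea (g.pd P) = (g.pd P).acc := by simp [ea, h1]
        rw [hrp, hea, Tl_succ hk] at key
        rw [Hd_succ hk]
        have hp := hpend ⟨(g.pd P).k, hk⟩
        rw [hsum] at hp
        have hp' := abs_le.mp hp
        have key' := abs_le.mp key
        rw [mul_add]
        rw [abs_le]
        constructor <;> linarith [hp'.1, hp'.2, key'.1, key'.2]
      have hsame : ∀ s' : LS, s'.sum = (g.pd P).sum → p.nx g.pd P y = s' →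
          ∀ j, ((p.gstep g P y).pd j).sum = (g.pd j).sum := by
        intro s' h1 h2 j
        by_cases hj : j = P
        · subst hj; rw [hself, h2, h1]
        · rw [gstep_pd_ne P y hj]
      have hrpsame : ∀ s' : LS, p.nx g.pd P y = s' → ea s' = ea (g.pd P) →
          rp (n := n) s' = rp (n := n) (g.pd P) →
          |ea ((p.gstep g P y).pd P) + Tl (rp (n := n) ((p.gstep g P y).pd P))
              (fun j => p.A ((p.gstep g P y).pd j)) - (p.gstep g P y).z - (p.gstep g P y).D P| ≤
            p.ε0 * Hd (rp (n := n) ((p.gstep g P y).pd P))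
              (fun j => p.u ((p.gstep g P y).pd j).b) := by
        intro s' h1 h2 h3
        have h4 : ea ((p.gstep g P y).pd P) = ea (g.pd P) := by rw [hself, h1, h2]
        have h5 : rp (n := n) ((p.gstep g P y).pd P) = rp (n := n) (g.pd P) := by
          rw [hself, h1, h3]
        rw [h4, h5]
        exact key
      have h0 : ∀ z, (g.pd P).ph = z → (z ≠ .final) → (∀ b, z ≠ .done (some b)) →
          rp (n := n) (g.pd P) = 0 ∧ ea (g.pd P) = 0 := by
        intro z h1 h2 h3
        subst h1
        exact rp_zero_of h2 h3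
      generalize hs' : p.nx g.pd P y = s' at htr
      cases htr with
      | vote h1 =>
        obtain ⟨a1, a2⟩ := h0 _ h1 (by simp) (by simp)
        exact hrpsame _ hs' (by rw [a2]; simp [ea]) (by rw [a1]; simp [rp])
      | pub1 z h1 h2 =>
        obtain ⟨a1, a2⟩ := h0 _ h1 (by simp) (by simp)
        exact hrpsame _ hs' (by rw [a2]; simp [ea]) (by rw [a1]; simp [rp])
      | pub2 z h1 h2 h3 h4 =>
        obtain ⟨a1, a2⟩ := h0 _ h1 (by simp) (by simp)
        exact hrpsame _ hs' (by rw [a2]; simp [ea]) (by rw [a1]; simp [rp])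
      | pub3 z h1 h2 h3 h4 =>
        obtain ⟨a1, a2⟩ := h0 _ h1 (by simp) (by simp)
        exact hrpsame _ hs' (by rw [a2]; simp [ea]) (by rw [a1]; simp [rp])
      | pub4 z h1 h2 h3 =>
        obtain ⟨a1, a2⟩ := h0 _ h1 (by simp) (by simp)
        exact hrpsame _ hs' (by rw [a2]; simp [ea]) (by rw [a1]; simp [rp])
      | chk1 h1 h2 =>
        obtain ⟨a1, a2⟩ := h0 _ h1 (by simp) (by simp)
        exact hrpsame _ hs' (by rw [a2]; simp [ea, h1]) (by rw [a1]; simp [rp, h1])
      | chk2 h1 h2 h3 h4 =>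
        obtain ⟨a1, a2⟩ := h0 _ h1 (by simp) (by simp)
        exact hrpsame _ hs' (by rw [a2]; simp [ea]) (by rw [a1]; simp [rp])
      | chk3 h1 h2 h3 h4 =>
        obtain ⟨a1, a2⟩ := h0 _ h1 (by simp) (by simp)
        exact hrpsame _ hs' (by rw [a2]; simp [ea]) (by rw [a1]; simp [rp])
      | chk4 h1 h2 h3 =>
        obtain ⟨a1, a2⟩ := h0 _ h1 (by simp) (by simp)
        exact hrpsame _ hs' (by rw [a2]; simp [ea]) (by rw [a1]; simp [rp])
      | ver1 h1 h2 h3 =>
        obtain ⟨a1, a2⟩ := h0 _ h1 (by simp) (by simp)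
        exact hrpsame _ hs' (by rw [a2]; simp [ea, h1]) (by rw [a1]; simp [rp, h1])
      | ver2 h1 h2 h3 h4 =>
        obtain ⟨a1, a2⟩ := h0 _ h1 (by simp) (by simp)
        exact hrpsame _ hs' (by rw [a2]; simp [ea]) (by rw [a1]; simp [rp])
      | ver3 h1 h2 h3 h4 h5 =>
        obtain ⟨a1, a2⟩ := h0 _ h1 (by simp) (by simp)
        exact hrpsame _ hs' (by rw [a2]; simp [ea]) (by rw [a1]; simp [rp])
      | ver4 h1 h2 h3 h4 h5 =>
        obtain ⟨a1, a2⟩ := h0 _ h1 (by simp) (by simp)
        exact hrpsame _ hs' (by rw [a2]; simp [ea]) (by rw [a1]; simp [rp])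
      | fin1 h1 hk h3 =>
        have h4 := hnew hk h1 (hsame _ (by rfl) hs')
        have h5 : ea ((p.gstep g P y).pd P) = (g.pd P).acc + (g.pd ⟨(g.pd P).k, hk⟩).sum := by
          rw [hself, hs']; simp [ea, h1]
        have h6 : rp (n := n) ((p.gstep g P y).pd P) = (g.pd P).k + 1 := by
          rw [hself, hs']; simp [rp, h1]
        rw [h5, h6]
        exact h4
      | fin2 h1 hk h3 =>
        have h4 := hnew hk h1 (hsame _ (by rfl) hs')
        have h5 : ea ((p.gstep g P y).pd P) = (g.pd P).acc + (g.pd ⟨(g.pd P).k, hk⟩).sum := by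
          rw [hself, hs']; simp [ea]
        have h6 : rp (n := n) ((p.gstep g P y).pd P) = (g.pd P).k + 1 := by
          rw [hself, hs']; simp only [rp]; omega
        rw [h5, h6]
        exact h4
      | done o h1 => exact hrpsame _ hs' rfl rfl
    · rw [gstep_pd_ne q y hPq]
      exact key
  · -- out
    intro P b hP
    by_cases hPq : P = q
    · subst hPq
      rw [hself] at hP ⊢
      generalize hs' : p.nx g.pd P y = s' at hP htr ⊢
      cases htr with
      | vote h1 => simp at hP
      | pub1 z h1 h2 => simp at hP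
      | pub2 z h1 h2 h3 h4 => simp at hP
      | pub3 z h1 h2 h3 h4 => simp at hP
      | pub4 z h1 h2 h3 => simp at hP
      | chk1 h1 h2 => simp [h1] at hP
      | chk2 h1 h2 h3 h4 => simp at hP
      | chk3 h1 h2 h3 h4 => simp at hP
      | chk4 h1 h2 h3 => simp at hP
      | ver1 h1 h2 h3 => simp [h1] at hP
      | ver2 h1 h2 h3 h4 => simp at hP
      | ver3 h1 h2 h3 h4 h5 => simp at hP
      | ver4 h1 h2 h3 h4 h5 => simp at hP
      | fin1 h1 h2 h3 => simp [h1] at hP
      | fin2 h1 h2 h3 =>
        injection hP with hP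
        injection hP with hP
        rw [← hP]
      | done o h1 => exact hg2.out P b hP
    · rw [gstep_pd_ne q y hPq] at hP ⊢
      exact hg2.out P b hP

theorem OK.inv2 (h : p.OK x) (l : List (Fin n × Bool)) : p.Inv2 (p.gh l) := by
  induction l using List.reverseRecOn with
  | nil => exact h.inv2_init
  | append_singleton l e ih =>
    rw [gh_snoc]
    exact h.inv2_step (h.inv l) ih e.1 e.2

end Par

end RC.SOne
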